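import Mathlib

/-!
# Maximal inequality in continuous time (module ContMax)

Doob's maximal inequality for a non-negative submartingale with continuous paths on `[t, t+h]`.

Proof: for `n : ℕ` take the grid `u_k = t + k h / 2^n`, `k ≤ 2^n`.  The sequence
`f k = M (t + min k (2^n) * h / 2^n)` is a non-negative submartingale for the filtration
`𝒢 k = 𝓕 (t + min k (2^n) * h / 2^n)` (use `submartingale_of_setIntegral_le_succ` or
`submartingale_of_setIntegral_le`), so `MeasureTheory.maximal_ineq` gives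
`r * P {r ≤ max_k f k} ≤ ∫ M (t+h)`.  The events `{∃ k ≤ 2^n, r < f_k}` increase with `n`, and by
continuity of the paths their union contains (up to a null set) `{∃ u ∈ [t,t+h], r < M u}`
(dyadic points are dense in `[t,t+h]`); conclude with continuity from below
(`MeasureTheory.measure_iUnion_le`-type argument / `Monotone.measure_iUnion`).
-/

open MeasureTheory ProbabilityTheory Filter
open scoped NNReal Topology ENNReal

namespace Pool.Agent.H66.CBP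

/-- The dyadic grid of `[t, t+h]` with `2^n` steps, constant after step `2^n`. -/
noncomputable def cmGrid (t h : ℝ≥0) (n k : ℕ) : ℝ≥0 := t + ((min k (2 ^ n) : ℕ) : ℝ≥0) * (h / 2 ^ n)

lemma cmGrid_mono (t h : ℝ≥0) (n : ℕ) : Monotone (cmGrid t h n) := by
  intro k l hkl
  unfold cmGrid
  gcongr

lemma cmGrid_ge (t h : ℝ≥0) (n k : ℕ) : t ≤ cmGrid t h n k := le_self_add

lemma cmGrid_last (t h : ℝ≥0) (n : ℕ) : cmGrid t h n (2 ^ n) = t + h := by
  unfold cmGrid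
  rw [min_self]
  push_cast
  rw [mul_div_cancel₀]
  positivity

lemma cmGrid_double (t h : ℝ≥0) (n k : ℕ) : cmGrid t h (n + 1) (2 * k) = cmGrid t h n k := by
  unfold cmGrid
  have h1 : min (2 * k) (2 ^ (n + 1)) = 2 * min k (2 ^ n) := by
    rw [pow_succ']
    omega
  rw [h1]
  push_cast
  rw [pow_succ]
  have h2 : (2 : ℝ≥0) ^ n ≠ 0 := by positivity
  field_simp

/-- Discrete maximal inequality on the grid. -/
lemma cm_grid_bound {Ω : Type*} {mΩ : MeasurableSpace Ω} {P : Measure Ω} [IsProbabilityMeasure P]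
    {𝓕 : Filtration ℝ≥0 mΩ} (t h : ℝ≥0) (M : ℝ≥0 → Ω → ℝ) (hnn : ∀ u ω, 0 ≤ M u ω)
    (had : ∀ u, t ≤ u → Measurable[𝓕 u] (M u)) (hint : ∀ u, t ≤ u → Integrable (M u) P)
    (hsub : ∀ s u, t ≤ s → s ≤ u → ∀ A, MeasurableSet[𝓕 s] A →
      ∫ ω in A, M s ω ∂P ≤ ∫ ω in A, M u ω ∂P)
    (r : ℝ) (hr : 0 < r) (n : ℕ) :
    P {ω | ∃ k, k ≤ 2 ^ n ∧ r < M (cmGrid t h n k) ω} ≤
      ENNReal.ofReal ((∫ ω, M (t + h) ω ∂P) / r) := by
  let 𝒢 : Filtration ℕ mΩ :=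
    ⟨fun k => 𝓕 (cmGrid t h n k), fun k l hkl => 𝓕.mono (cmGrid_mono t h n hkl),
      fun k => 𝓕.le _⟩
  have hS : Submartingale (fun k => M (cmGrid t h n k)) 𝒢 P := by
    apply submartingale_of_setIntegral_le_succ
    · intro k
      exact (had _ (cmGrid_ge t h n k)).stronglyMeasurable
    · intro k
      exact hint _ (cmGrid_ge t h n k)
    · intro k A hA
      exact hsub _ _ (cmGrid_ge t h n k) (cmGrid_mono t h n (Nat.le_succ k)) A hA
  have hM := maximal_ineq hS (fun k ω => hnn _ ω) (ε := r.toNNReal) (2 ^ n)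
  have hrr : ((r.toNNReal : ℝ≥0) : ℝ) = r := Real.coe_toNNReal r hr.le
  set S : Set Ω := {ω | ((r.toNNReal : ℝ≥0) : ℝ) ≤
    (Finset.range (2 ^ n + 1)).sup' Finset.nonempty_range_add_one
      fun k => M (cmGrid t h n k) ω} with hSdef
  have hsubS : {ω | ∃ k, k ≤ 2 ^ n ∧ r < M (cmGrid t h n k) ω} ⊆ S := by
    rintro ω ⟨k, hk, hkr⟩
    rw [hSdef, Set.mem_ofPred_eq, hrr, Finset.le_sup'_iff]
    exact ⟨k, Finset.mem_range.mpr (by omega), hkr.le⟩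
  have h1 : (∫ ω in S, M (cmGrid t h n (2 ^ n)) ω ∂P) ≤ ∫ ω, M (t + h) ω ∂P := by
    rw [cmGrid_last]
    exact setIntegral_le_integral (hint _ le_self_add) (Eventually.of_forall fun ω => hnn _ ω)
  have h2 : (ENNReal.ofReal r) * P S ≤ ENNReal.ofReal (∫ ω, M (t + h) ω ∂P) := by
    refine le_trans ?_ (hM.trans (ENNReal.ofReal_le_ofReal h1))
    exact le_of_eq rfl
  have hr0 : ENNReal.ofReal r ≠ 0 := by
    rw [Ne, ENNReal.ofReal_eq_zero, not_le]; exact hr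
  calc P {ω | ∃ k, k ≤ 2 ^ n ∧ r < M (cmGrid t h n k) ω} ≤ P S := measure_mono hsubS
    _ ≤ ENNReal.ofReal (∫ ω, M (t + h) ω ∂P) / ENNReal.ofReal r := by
        rw [ENNReal.le_div_iff_mul_le (Or.inl hr0) (Or.inl ENNReal.ofReal_ne_top), mul_comm]
        exact h2
    _ = ENNReal.ofReal ((∫ ω, M (t + h) ω ∂P) / r) := (ENNReal.ofReal_div_of_pos hr).symm

/-- The grids are dense in `[t, t+h]`. -/
lemma cm_dense (t h : ℝ≥0) (g : ℝ≥0 → ℝ) (hg : Continuous g) (r : ℝ) (u : ℝ≥0) (hu1 : t ≤ u)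
    (hu2 : u ≤ t + h) (hr : r < g u) : ∃ n k : ℕ, k ≤ 2 ^ n ∧ r < g (cmGrid t h n k) := by
  rcases eq_or_ne h 0 with rfl | hh
  · refine ⟨0, 0, Nat.zero_le _, ?_⟩
    have : u = t := le_antisymm (by simpa using hu2) hu1
    simpa [cmGrid, this] using hr
  · have hhpos : 0 < h := pos_iff_ne_zero.mpr hh
    have hopen : {v | r < g v} ∈ 𝓝 u := (isOpen_lt continuous_const hg).mem_nhds hr
    obtain ⟨ε, hε, hball⟩ := Metric.mem_nhds_iff.mp hopen
    -- choose `n` with `h / 2^n < ε`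
    obtain ⟨n, hn⟩ : ∃ n : ℕ, (h : ℝ) / 2 ^ n < ε := by
      obtain ⟨n, hn⟩ := pow_unbounded_of_one_lt ((h : ℝ) / ε) (one_lt_two)
      refine ⟨n, ?_⟩
      rw [div_lt_iff₀ (by positivity)]
      rw [div_lt_iff₀ hε] at hn
      linarith
    have hδ : (0 : ℝ) < (h : ℝ) / 2 ^ n := by
      have : (0 : ℝ) < h := hhpos
      positivity
    have hu1' : (t : ℝ) ≤ u := hu1
    have hu2' : (u : ℝ) ≤ t + h := by exact_mod_cast hu2
    set x : ℝ := ((u : ℝ) - t) / ((h : ℝ) / 2 ^ n) with hx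
    have hx0 : 0 ≤ x := div_nonneg (by linarith) hδ.le
    have hx1 : x ≤ 2 ^ n := by
      rw [hx, div_le_iff₀ hδ]
      have : (2 : ℝ) ^ n * ((h : ℝ) / 2 ^ n) = h := by field_simp
      rw [this]; linarith
    have hk1 : (⌊x⌋₊ : ℝ) ≤ x := Nat.floor_le hx0
    have hk2 : x < ⌊x⌋₊ + 1 := Nat.lt_floor_add_one x
    have hk3 : ⌊x⌋₊ ≤ 2 ^ n := by
      have : (⌊x⌋₊ : ℝ) ≤ ((2 ^ n : ℕ) : ℝ) := by push_cast; linarith
      exact_mod_cast this
    refine ⟨n, ⌊x⌋₊, hk3, ?_⟩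
    apply hball
    rw [Metric.mem_ball, NNReal.dist_eq]
    have hval : ((cmGrid t h n ⌊x⌋₊ : ℝ≥0) : ℝ) = t + ⌊x⌋₊ * ((h : ℝ) / 2 ^ n) := by
      unfold cmGrid
      rw [min_eq_left hk3]
      push_cast
      ring
    rw [hval]
    have hxx : (u : ℝ) = t + x * ((h : ℝ) / 2 ^ n) := by
      rw [hx, div_mul_cancel₀ _ hδ.ne']; ring
    rw [hxx]
    have : (t : ℝ) + ⌊x⌋₊ * ((h : ℝ) / 2 ^ n) - (t + x * ((h : ℝ) / 2 ^ n)) =
      (⌊x⌋₊ - x) * ((h : ℝ) / 2 ^ n) := by ring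
    rw [this, abs_mul, abs_of_pos hδ, abs_sub_comm, abs_of_nonneg (by linarith)]
    calc (x - ⌊x⌋₊) * ((h : ℝ) / 2 ^ n) ≤ 1 * ((h : ℝ) / 2 ^ n) := by
          apply mul_le_mul_of_nonneg_right _ hδ.le
          linarith
      _ < ε := by rw [one_mul]; exact hn

theorem cont_max {Ω : Type*} {mΩ : MeasurableSpace Ω} {P : Measure Ω} [IsProbabilityMeasure P]
    {𝓕 : Filtration ℝ≥0 mΩ} (t h : ℝ≥0) (M : ℝ≥0 → Ω → ℝ) (hnn : ∀ u ω, 0 ≤ M u ω)
    (had : ∀ u, t ≤ u → Measurable[𝓕 u] (M u)) (hint : ∀ u, t ≤ u → Integrable (M u) P)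
    (hc : ∀ᵐ ω ∂P, Continuous fun u => M u ω)
    (hsub : ∀ s u, t ≤ s → s ≤ u → ∀ A, MeasurableSet[𝓕 s] A →
      ∫ ω in A, M s ω ∂P ≤ ∫ ω in A, M u ω ∂P)
    (r : ℝ) (hr : 0 < r) :
    P {ω | ∃ u, t ≤ u ∧ u ≤ t + h ∧ r < M u ω} ≤
      ENNReal.ofReal ((∫ ω, M (t + h) ω ∂P) / r) := by
  set E : ℕ → Set Ω := fun n => {ω | ∃ k, k ≤ 2 ^ n ∧ r < M (cmGrid t h n k) ω} with hE
  have hmono : Monotone E := by
    apply monotone_nat_of_le_succ
    rintro n ω ⟨k, hk, hkr⟩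
    refine ⟨2 * k, by rw [pow_succ']; omega, ?_⟩
    rw [cmGrid_double]
    exact hkr
  have h1 : P {ω | ∃ u, t ≤ u ∧ u ≤ t + h ∧ r < M u ω} ≤ P (⋃ n, E n) := by
    apply measure_mono_ae
    filter_upwards [hc] with ω hω
    rintro ⟨u, hu1, hu2, hur⟩
    obtain ⟨n, k, hk, hkr⟩ := cm_dense t h (fun u => M u ω) hω r u hu1 hu2 hur
    exact Set.mem_iUnion.mpr ⟨n, k, hk, hkr⟩
  refine h1.trans ?_
  rw [hmono.measure_iUnion]
  exact iSup_le fun n => cm_grid_bound t h M hnn had hint hsub r hr n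

end Pool.Agent.H66.CBP
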