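import Mathlib

/-!
# Many low free particles (module Count)

`gauss_lower`: density bound `gaussianPDFReal 0 t x ≥ (2πt)^(-1/2) exp(-(b t+1)^2/(2t))` on
`[-(b t) - 1, -(b t)]`, and `(b t+1)^2/(2t) = b^2 t/2 + b + 1/(2t) ≤ b^2 t/2 + b + 1/2` for `1 ≤ t`.

`count_low`: the indicators of `ξ i ≤ x`, `i < M`, are independent with mean `q`; Chebyshev: the
variance of their sum is at most `M q` (`IndepFun.variance_sum`), and if the sum is `< K ≤ M q / 2`
then it differs from its mean `M q` by at least `M q / 2`.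
-/

open MeasureTheory ProbabilityTheory Filter
open scoped NNReal Topology ENNReal

namespace Pool.Agent.H66.CBP

theorem gauss_lower (t : ℝ≥0) (ht : 1 ≤ t) (b : ℝ) (hb : 0 ≤ b) :
    (2 * Real.pi * t) ^ (-(1 / 2) : ℝ) * Real.exp (-b - 1 / 2) * Real.exp (-(b ^ 2 * t / 2)) ≤
      (gaussianReal 0 t).real (Set.Iic (-(b * t))) := by
  have ht0 : t ≠ 0 := by
    rintro rfl
    exact absurd ht (by simp)
  have ht1 : (1 : ℝ) ≤ (t : ℝ) := by exact_mod_cast ht
  have htp : (0 : ℝ) < (t : ℝ) := by linarith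
  set c : ℝ := (2 * Real.pi * t) ^ (-(1 / 2) : ℝ) * Real.exp (-b - 1 / 2) *
    Real.exp (-(b ^ 2 * t / 2)) with hc
  have hsub : Set.Icc (-(b * t) - 1) (-(b * t)) ⊆ Set.Iic (-(b * (t : ℝ))) :=
    fun y hy => hy.2
  have hmono : (gaussianReal 0 t).real (Set.Icc (-(b * t) - 1) (-(b * t))) ≤
      (gaussianReal 0 t).real (Set.Iic (-(b * t))) := measureReal_mono hsub
  refine le_trans ?_ hmono
  have hreal : (gaussianReal 0 t).real (Set.Icc (-(b * t) - 1) (-(b * t))) =
      ∫ y in Set.Icc (-(b * (t : ℝ)) - 1) (-(b * t)), gaussianPDFReal 0 t y := by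
    rw [Measure.real, gaussianReal_apply_eq_integral 0 ht0, ENNReal.toReal_ofReal]
    exact integral_nonneg fun y => gaussianPDFReal_nonneg 0 t y
  rw [hreal]
  have hconst : c = ∫ _ in Set.Icc (-(b * (t : ℝ)) - 1) (-(b * t)), c := by
    rw [setIntegral_const, Real.volume_real_Icc]
    simp
  rw [hconst]
  refine setIntegral_mono_on ?_ ?_ measurableSet_Icc ?_
  · exact integrableOn_const (by simp)
  · exact (integrable_gaussianPDFReal 0 t).integrableOn
  · intro y hy
    rw [hc, gaussianPDFReal]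
    have hs : (2 * Real.pi * (t : ℝ)) ^ (-(1 / 2) : ℝ) = (√(2 * Real.pi * t))⁻¹ := by
      rw [Real.rpow_neg (by positivity), Real.sqrt_eq_rpow]
    rw [hs, mul_assoc, ← Real.exp_add]
    refine mul_le_mul_of_nonneg_left ?_ (by positivity)
    rw [Real.exp_le_exp, sub_zero, le_div_iff₀ (by positivity)]
    have h1 : y ^ 2 ≤ (b * t + 1) ^ 2 := by
      have h2 := hy.1
      have h3 := hy.2
      have hbt : 0 ≤ b * t := by positivity
      exact sq_le_sq' (by linarith) (by linarith)
    nlinarith [h1, ht1, mul_nonneg hb htp.le]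

open Classical in
theorem count_low {Ω : Type*} {mΩ : MeasurableSpace Ω} {P : Measure Ω} [IsProbabilityMeasure P]
    {ξ : ℕ → Ω → ℝ} {t : ℝ≥0} (hlaw : ∀ i, HasLaw (ξ i) (gaussianReal 0 t) P)
    (hind : iIndepFun ξ P) (M K : ℕ) (x : ℝ)
    (hpos : 0 < M * (gaussianReal 0 t).real (Set.Iic x))
    (hK : 2 * K ≤ M * (gaussianReal 0 t).real (Set.Iic x)) :
    P {ω | ((Finset.range M).filter fun i => ξ i ω ≤ x).card < K} ≤
      ENNReal.ofReal (4 / (M * (gaussianReal 0 t).real (Set.Iic x))) := by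
  set q : ℝ := (gaussianReal 0 t).real (Set.Iic x) with hq
  set g : ℝ → ℝ := (Set.Iic x).indicator fun _ => (1 : ℝ) with hg
  have hgm : Measurable g := measurable_const.indicator measurableSet_Iic
  have hgb : ∀ y, ‖g y‖ ≤ 1 := by
    intro y
    rw [hg, Set.indicator_apply]
    split_ifs <;> simp
  set X : ℕ → Ω → ℝ := fun i ω => g (ξ i ω) with hX
  have hXm : ∀ i, AEMeasurable (X i) P := fun i => hgm.comp_aemeasurable (hlaw i).aemeasurable
  have hX2 : ∀ i, MemLp (X i) 2 P := fun i =>
    MemLp.of_bound (hXm i).aestronglyMeasurable 1 (Eventually.of_forall fun ω => hgb _)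
  have hXint : ∀ i, ∫ ω, X i ω ∂P = q := by
    intro i
    have h1 : ∫ ω, X i ω ∂P = ∫ y, g y ∂(gaussianReal 0 t) := by
      rw [← (hlaw i).map_eq, integral_map (hlaw i).aemeasurable hgm.aestronglyMeasurable]
    rw [h1, hg, integral_indicator_const _ measurableSet_Iic]
    simp [hq]
  have hXind : iIndepFun X P := hind.comp (fun _ => g) fun _ => hgm
  set S : Ω → ℝ := ∑ i ∈ Finset.range M, X i with hS
  have hS2 : MemLp S 2 P := memLp_finsetSum' _ fun i _ => hX2 i
  have hSint : ∫ ω, S ω ∂P = M * q := by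
    rw [hS]
    simp only [Finset.sum_apply]
    rw [integral_finsetSum _ fun i _ => (hX2 i).integrable (by norm_num)]
    simp [hXint]
  have hvar : Var[S; P] ≤ M * q := by
    rw [hS, IndepFun.variance_sum (fun i _ => hX2 i)
      (fun i _ j _ hij => hXind.indepFun hij)]
    have : ∀ i ∈ Finset.range M, Var[X i; P] ≤ q := by
      intro i _
      refine (variance_le_expectation_sq (hXm i).aestronglyMeasurable).trans ?_
      have h2 : (∫ ω, (X i ^ 2) ω ∂P) = ∫ ω, X i ω ∂P := by
        refine integral_congr_ae (Eventually.of_forall fun ω => ?_)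
        simp only [Pi.pow_apply, hX, hg, Set.indicator_apply]
        split_ifs <;> simp
      rw [h2, hXint]
    calc ∑ i ∈ Finset.range M, Var[X i; P] ≤ ∑ i ∈ Finset.range M, q := Finset.sum_le_sum this
      _ = M * q := by simp
  have hcpos : 0 < M * q / 2 := by linarith
  have hcheb := meas_ge_le_variance_div_sq hS2 hcpos
  refine (measure_mono ?_).trans (hcheb.trans ?_)
  · intro ω hω
    simp only [Set.mem_ofPred_eq] at hω ⊢
    have hcard : S ω = (((Finset.range M).filter fun i => ξ i ω ≤ x).card : ℝ) := by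
      rw [hS]
      simp only [Finset.sum_apply, hX, hg, Set.indicator_apply, Set.mem_Iic]
      rw [Finset.sum_boole]
    have hlt : S ω < K := by
      rw [hcard]
      exact_mod_cast hω
    rw [hSint, abs_sub_comm]
    refine le_trans ?_ (le_abs_self _)
    linarith
  · refine ENNReal.ofReal_le_ofReal ?_
    rw [div_le_div_iff₀ (by positivity) hpos]
    nlinarith [hvar, hpos, mul_le_mul_of_nonneg_right hvar hpos.le]

end Pool.Agent.H66.CBP
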