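import Mathlib

/-!
# Infinite systems of competing Brownian particles: definitions
-/

open MeasureTheory ProbabilityTheory Filter
open scoped NNReal Topology

namespace Pool.Agent.H66.CBP

/-- `p` lists the coordinates of `x` in nondecreasing order, ties being broken by the index. -/
def IsRanking (x : ℕ → ℝ) (p : Equiv.Perm ℕ) : Prop :=
  ∀ k l, k < l → x (p k) < x (p l) ∨ (x (p k) = x (p l) ∧ p k < p l)

/-- `x` is rankable: some permutation lists its coordinates in nondecreasing order. -/
def Rankable (x : ℕ → ℝ) : Prop :=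
  ∃ p : Equiv.Perm ℕ, ∀ k l, k < l → x (p k) ≤ x (p l)

open Classical in
/-- The ranking permutation of `x`, ties broken by the index (the identity if there is none). -/
noncomputable def rankPerm (x : ℕ → ℝ) : Equiv.Perm ℕ :=
  if h : ∃ p, IsRanking x p then h.choose else 1

/-- `W 0, W 1, ...` are independent standard Brownian motions for the filtration `𝓕`. -/
structure IsBrownianFamily {Ω : Type*} {mΩ : MeasurableSpace Ω} (P : Measure Ω)
    (𝓕 : Filtration ℝ≥0 mΩ) (W : ℕ → ℝ≥0 → Ω → ℝ) : Prop where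
  brownian : ∀ i, IsBrownianReal (W i) P
  indep : iIndepFun (fun (i : ℕ) (ω : Ω) (t : ℝ≥0) => W i t ω) P
  adapted : ∀ i, Adapted 𝓕 (W i)
  indep_past : ∀ s t, s ≤ t →
    Indep (𝓕 s) (MeasurableSpace.comap (fun ω i => W i t ω - W i s ω) inferInstance) P

/-- `X` is an infinite system of competing Brownian particles: `g k` is the drift of the particle
of rank `k` (ranks and indices start at `0`), `W` are the driving Brownian motions. -/
structure IsCompetingSystem {Ω : Type*} {mΩ : MeasurableSpace Ω} (P : Measure Ω)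
    (𝓕 : Filtration ℝ≥0 mΩ) (g : ℕ → ℝ) (W X : ℕ → ℝ≥0 → Ω → ℝ) : Prop where
  brownian : IsBrownianFamily P 𝓕 W
  adapted : ∀ i, Adapted 𝓕 (X i)
  continuous : ∀ᵐ ω ∂P, ∀ i, Continuous fun t => X i t ω
  rankable : ∀ᵐ ω ∂P, ∀ t, Rankable fun i => X i t ω
  sde : ∀ᵐ ω ∂P, ∀ (i : ℕ) (t : ℝ≥0), X i t ω = X i 0 ω +
    (∫ s in (0 : ℝ)..t, g ((rankPerm fun j => X j s.toNNReal ω).symm i)) + W i t ω

end Pool.Agent.H66.CBP
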