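import Mathlib

/-!
# Initial configuration with independent exponential gaps (module Init)

`lam g a n = 2 (g 0 + ... + g n) + (n+1) a` is the rate of the gap number `n`;
`x i = z 0 + ... + z (i-1)`.

`mgf_exp`: `∫_0^∞ e^{s z} r e^{-r z} dz = r / (r - s)` for `s < r`.

`init_sum` (for `θ > a`): `e i := E exp(-θ x_i) = ∏_{k<i} lam k / (lam k + θ)` satisfies
`θ e_{i+1} = lam i * e_i - lam i * e_{i+1}`, hence
`(θ - a - 2 g (i+1)) e_{i+1} = lam i * e_i - lam (i+1) * e_{i+1}`; for `i ≥ i0` the bracket is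
`≥ (θ-a)/2 > 0` because `g → 0`; sum and telescope: `∑_{i ≥ i0} e_{i+1} ≤ 2/(θ-a) * lam i0 * e_i0`.

`init_growth`: `E exp(s x_M) = ∏_{k<M} lam k / (lam k - s)` for `0 < s < lam k` (all `k`), and
`lam k / (lam k - s) = 1 + s/(lam k - s) ≤ exp(s/(lam k - s)) ≤ exp(p/(k+1))` for `k ≥ k0` because
`lam k / (k+1) → a` (Cesàro) and `p > s/a`; finally `∑_{k<M} 1/(k+1) ≤ 1 + log (M+1)`
(`harmonic_le_one_add_log` or similar).
-/

open MeasureTheory ProbabilityTheory Filter
open scoped NNReal Topology ENNReal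

namespace Pool.Agent.H66.CBP

/-- The rate of the gap number `n`. -/
noncomputable def lam (g : ℕ → ℝ) (a : ℝ) (n : ℕ) : ℝ :=
  2 * ∑ k ∈ Finset.range (n + 1), g k + (n + 1) * a

theorem mgf_exp {Ω : Type*} {mΩ : MeasurableSpace Ω} {P : Measure Ω} [IsProbabilityMeasure P]
    {ξ : Ω → ℝ} {r s : ℝ} (hr : 0 < r) (hs : s < r) (hlaw : HasLaw ξ (expMeasure r) P) :
    ∫⁻ ω, ENNReal.ofReal (Real.exp (s * ξ ω)) ∂P = ENNReal.ofReal (r / (r - s)) := by
  have hm : Measurable fun y : ℝ => ENNReal.ofReal (Real.exp (s * y)) := by fun_prop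
  have hd : Measurable fun x => exponentialPDF r x :=
    (measurable_exponentialPDFReal r).ennreal_ofReal
  have hd' : Measurable fun x => exponentialPDF (r - s) x :=
    (measurable_exponentialPDFReal (r - s)).ennreal_ofReal
  have hrs : 0 < r - s := by linarith
  have e1 : ∫⁻ ω, ENNReal.ofReal (Real.exp (s * ξ ω)) ∂P =
      ∫⁻ y, ENNReal.ofReal (Real.exp (s * y)) ∂(expMeasure r) := by
    rw [← hlaw.map_eq, lintegral_map' hm.aemeasurable hlaw.aemeasurable]
  have e2 : expMeasure r = volume.withDensity (exponentialPDF r) := rfl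
  rw [e1, e2, lintegral_withDensity_eq_lintegral_mul _ hd hm]
  have e3 : ∀ x, (exponentialPDF r * fun y => ENNReal.ofReal (Real.exp (s * y))) x =
      ENNReal.ofReal (r / (r - s)) * exponentialPDF (r - s) x := by
    intro x
    rw [Pi.mul_apply]
    rcases lt_or_ge x 0 with hx | hx
    · rw [exponentialPDF_of_neg hx, exponentialPDF_of_neg hx, zero_mul, mul_zero]
    · rw [exponentialPDF_of_nonneg hx, exponentialPDF_of_nonneg hx,
        ← ENNReal.ofReal_mul (by positivity), ← ENNReal.ofReal_mul (by positivity)]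
      congr 1
      have e4 : Real.exp (-(r * x)) * Real.exp (s * x) = Real.exp (-((r - s) * x)) := by
        rw [← Real.exp_add]
        congr 1
        ring
      rw [mul_assoc, e4]
      field_simp
  rw [lintegral_congr e3, lintegral_const_mul _ hd', lintegral_exponentialPDF_eq_one hrs, mul_one]

/-- Exponential moments of sums of independent variables. -/
theorem init_prod {Ω : Type*} {mΩ : MeasurableSpace Ω} {P : Measure Ω} [IsProbabilityMeasure P]
    {z : ℕ → Ω → ℝ} (hz : ∀ n, AEMeasurable (z n) P) (hind : iIndepFun z P) (s : ℝ) (M : ℕ) :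
    ∫⁻ ω, ENNReal.ofReal (Real.exp (s * ∑ k ∈ Finset.range M, z k ω)) ∂P =
      ∏ k ∈ Finset.range M, ∫⁻ ω, ENNReal.ofReal (Real.exp (s * z k ω)) ∂P := by
  set X : ℕ → Ω → ℝ≥0∞ := fun k ω => ENNReal.ofReal (Real.exp (s * z k ω)) with hX
  have hg : Measurable fun y : ℝ => ENNReal.ofReal (Real.exp (s * y)) := by fun_prop
  have hXm : ∀ k, AEMeasurable (X k) P := fun k => hg.comp_aemeasurable (hz k)
  have hXi : iIndepFun X P := hind.comp (fun _ y => ENNReal.ofReal (Real.exp (s * y))) fun _ => hg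
  have e1 : ∀ (M : ℕ) (ω : Ω), ENNReal.ofReal (Real.exp (s * ∑ k ∈ Finset.range M, z k ω)) =
      (∏ k ∈ Finset.range M, X k) ω := by
    intro M ω
    rw [Finset.prod_apply, Finset.mul_sum, Real.exp_sum,
      ENNReal.ofReal_prod_of_nonneg fun _ _ => (Real.exp_pos _).le]
  simp only [e1]
  induction M with
  | zero => simp
  | succ M ih =>
    rw [Finset.prod_range_succ, Finset.prod_range_succ, ← ih]
    exact lintegral_mul_eq_lintegral_mul_lintegral_of_indepFun'
      (Finset.aemeasurable_prod _ fun i _ => hXm i) (hXm M)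
      (hXi.indepFun_finsetProd_of_notMem₀ hXm Finset.notMem_range_self)

theorem init_lam_succ (g : ℕ → ℝ) (a : ℝ) (n : ℕ) :
    lam g a (n + 1) = lam g a n + 2 * g (n + 1) + a := by
  unfold lam
  rw [Finset.sum_range_succ _ (n + 1)]
  push_cast
  ring

theorem init_sum {Ω : Type*} {mΩ : MeasurableSpace Ω} {P : Measure Ω} [IsProbabilityMeasure P]
    {g : ℕ → ℝ} {a : ℝ} (hg : Tendsto g atTop (𝓝 0)) (hlam : ∀ n, 0 < lam g a n) (ha : 0 < a)
    {z : ℕ → Ω → ℝ} (hlaw : ∀ n, HasLaw (z n) (expMeasure (lam g a n)) P)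
    (hind : iIndepFun z P) {θ : ℝ} (hθ : a < θ) :
    ∑' i : ℕ, ∫⁻ ω, ENNReal.ofReal (Real.exp (-θ * ∑ k ∈ Finset.range i, z k ω)) ∂P < ∞ := by
  set e : ℕ → ℝ := fun i => ∏ k ∈ Finset.range i, (lam g a k / (lam g a k + θ)) with he
  have hθ0 : 0 < θ := ha.trans hθ
  have hpos : ∀ k, 0 < lam g a k / (lam g a k + θ) := fun k =>
    div_pos (hlam k) (add_pos (hlam k) hθ0)
  have he0 : ∀ i, 0 < e i := fun i => Finset.prod_pos fun k _ => hpos k
  have e1 : ∀ i : ℕ, ∫⁻ ω, ENNReal.ofReal (Real.exp (-θ * ∑ k ∈ Finset.range i, z k ω)) ∂P =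
      ENNReal.ofReal (e i) := by
    intro i
    rw [init_prod (fun n => (hlaw n).aemeasurable) hind, he,
      ENNReal.ofReal_prod_of_nonneg fun k _ => (hpos k).le]
    refine Finset.prod_congr rfl fun k _ => ?_
    rw [mgf_exp (hlam k) (by linarith [hlam k]) (hlaw k), sub_neg_eq_add]
  have hrec : ∀ i, (lam g a i + θ) * e (i + 1) = lam g a i * e i := by
    intro i
    have h1 : e (i + 1) = e i * (lam g a i / (lam g a i + θ)) := Finset.prod_range_succ _ _
    have h2 : lam g a i + θ ≠ 0 := (add_pos (hlam i) hθ0).ne'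
    rw [h1]
    field_simp
  have hc : 0 < (θ - a) / 2 := by linarith
  obtain ⟨i0, hi0⟩ := Filter.eventually_atTop.1
    (hg.eventually (gt_mem_nhds (show (0 : ℝ) < (θ - a) / 4 by linarith)))
  have hstep : ∀ i, i0 ≤ i → (θ - a) / 2 * e (i + 1) ≤
      lam g a i * e i - lam g a (i + 1) * e (i + 1) := by
    intro i hi
    have h1 := hrec i
    have h2 : g (i + 1) < (θ - a) / 4 := hi0 (i + 1) (by omega)
    rw [init_lam_succ]
    have h3 := he0 (i + 1)
    nlinarith
  have hsum : Summable e := by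
    rw [← summable_nat_add_iff (i0 + 1)]
    refine summable_of_sum_range_le (c := lam g a i0 * e i0 / ((θ - a) / 2))
      (fun n => (he0 _).le) fun n => ?_
    rw [le_div_iff₀ hc]
    have h1 : ∀ n : ℕ, (∑ j ∈ Finset.range n, e (j + (i0 + 1))) * ((θ - a) / 2) ≤
        lam g a i0 * e i0 - lam g a (i0 + n) * e (i0 + n) := by
      intro n
      induction n with
      | zero => simp
      | succ n ih =>
        rw [Finset.sum_range_succ, add_mul]
        have h2 := hstep (i0 + n) (by omega)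
        have h3 : n + (i0 + 1) = i0 + n + 1 := by ring
        rw [h3, show i0 + (n + 1) = i0 + n + 1 by ring]
        linarith
    have h4 := h1 n
    have h5 : 0 < lam g a (i0 + n) * e (i0 + n) := mul_pos (hlam _) (he0 _)
    linarith
  simp only [e1]
  rw [← ENNReal.ofReal_tsum_of_nonneg (fun i => (he0 i).le) hsum]
  exact ENNReal.ofReal_lt_top

theorem init_growth {Ω : Type*} {mΩ : MeasurableSpace Ω} {P : Measure Ω} [IsProbabilityMeasure P]
    {g : ℕ → ℝ} {a : ℝ} (hg : Tendsto g atTop (𝓝 0)) (ha : 0 < a)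
    {z : ℕ → Ω → ℝ} (hlaw : ∀ n, HasLaw (z n) (expMeasure (lam g a n)) P)
    (hind : iIndepFun z P) {s p : ℝ} (hs0 : 0 < s) (hs : ∀ n, s < lam g a n) (hp : s / a < p) :
    ∃ C : ℝ, ∀ M : ℕ,
      ∫⁻ ω, ENNReal.ofReal (Real.exp (s * ∑ k ∈ Finset.range M, z k ω)) ∂P ≤
        ENNReal.ofReal (C * ((M : ℝ) + 1) ^ p) := by
  have hlam : ∀ n, 0 < lam g a n := fun n => hs0.trans (hs n)
  have hp0 : 0 < p := (div_pos hs0 ha).trans hp
  set f : ℕ → ℝ := fun k => lam g a k / (lam g a k - s) with hf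
  have hd : ∀ k, 0 < lam g a k - s := fun k => by linarith [hs k]
  have hf1 : ∀ k, 1 ≤ f k := fun k => by
    rw [hf]
    show 1 ≤ lam g a k / (lam g a k - s)
    rw [one_le_div (hd k)]
    linarith
  have hf0 : ∀ k, 0 ≤ f k := fun k => zero_le_one.trans (hf1 k)
  have e1 : ∀ M : ℕ, ∫⁻ ω, ENNReal.ofReal (Real.exp (s * ∑ k ∈ Finset.range M, z k ω)) ∂P =
      ENNReal.ofReal (∏ k ∈ Finset.range M, f k) := by
    intro M
    rw [init_prod (fun n => (hlaw n).aemeasurable) hind,
      ENNReal.ofReal_prod_of_nonneg fun k _ => hf0 k]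
    exact Finset.prod_congr rfl fun k _ => mgf_exp (hlam k) (hs k) (hlaw k)
  -- asymptotics of the rates
  have hces : Tendsto (fun n : ℕ => lam g a n / ((n : ℝ) + 1)) atTop (𝓝 a) := by
    have h1 := (hg.cesaro.const_mul 2).add_const a
    rw [mul_zero, zero_add] at h1
    have h2 := (tendsto_add_atTop_iff_nat 1).2 h1
    refine h2.congr fun n => ?_
    unfold lam
    have h3 : ((n : ℝ) + 1) ≠ 0 := by positivity
    push_cast
    field_simp
  have hinv : Tendsto (fun n : ℕ => s / ((n : ℝ) + 1)) atTop (𝓝 0) := by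
    have h1 := (tendsto_one_div_add_atTop_nhds_zero_nat (𝕜 := ℝ)).const_mul s
    rw [mul_zero] at h1
    refine h1.congr fun n => ?_
    ring
  have hlim : Tendsto (fun n : ℕ => p * (lam g a n / ((n : ℝ) + 1) - s / ((n : ℝ) + 1))) atTop
      (𝓝 (p * a)) := by
    have := (hces.sub hinv).const_mul p
    rwa [sub_zero] at this
  have hsa : s < p * a := (div_lt_iff₀ ha).1 hp
  obtain ⟨k0, hk0⟩ := Filter.eventually_atTop.1 (hlim.eventually (lt_mem_nhds hsa))
  have hfk : ∀ k, k0 ≤ k → f k ≤ Real.exp (p * (1 / ((k : ℝ) + 1))) := by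
    intro k hk
    have h1 := hk0 k hk
    have h2 : (0 : ℝ) < (k : ℝ) + 1 := by positivity
    have h3 : s / (lam g a k - s) ≤ p * (1 / ((k : ℝ) + 1)) := by
      rw [← sub_div, mul_div_assoc', lt_div_iff₀ h2] at h1
      rw [mul_one_div, div_le_div_iff₀ (hd k) h2]
      exact h1.le
    have h4 : f k = s / (lam g a k - s) + 1 := by
      rw [hf]
      show lam g a k / (lam g a k - s) = _
      have := (hd k).ne'
      field_simp
      ring
    rw [h4]
    exact (Real.add_one_le_exp _).trans (Real.exp_le_exp.2 h3)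
  set K : ℝ := ∏ k ∈ Finset.range k0, f k with hK
  have hK1 : 0 ≤ K := Finset.prod_nonneg fun k _ => hf0 k
  have hmain : ∀ M : ℕ, ∏ k ∈ Finset.range M, f k ≤
      K * Real.exp (p * ∑ k ∈ Finset.range M, 1 / ((k : ℝ) + 1)) := by
    intro M
    rcases le_total M k0 with h | h
    · have hmono : Monotone fun n : ℕ => ∏ k ∈ Finset.range n, f k :=
        monotone_nat_of_le_succ fun n => by
          rw [Finset.prod_range_succ]
          exact le_mul_of_one_le_right (Finset.prod_nonneg fun k _ => hf0 k) (hf1 n)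
      have h1 : ∏ k ∈ Finset.range M, f k ≤ K := hmono h
      have h2 : 1 ≤ Real.exp (p * ∑ k ∈ Finset.range M, 1 / ((k : ℝ) + 1)) :=
        Real.one_le_exp (mul_nonneg hp0.le (Finset.sum_nonneg fun k _ => by positivity))
      exact h1.trans (le_mul_of_one_le_right hK1 h2)
    · induction M, h using Nat.le_induction with
      | base =>
        have h2 : 1 ≤ Real.exp (p * ∑ k ∈ Finset.range k0, 1 / ((k : ℝ) + 1)) :=
          Real.one_le_exp (mul_nonneg hp0.le (Finset.sum_nonneg fun k _ => by positivity))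
        exact le_mul_of_one_le_right hK1 h2
      | succ M hM ih =>
        rw [Finset.prod_range_succ, Finset.sum_range_succ, mul_add, Real.exp_add, ← mul_assoc]
        exact mul_le_mul ih (hfk M hM) (hf0 M) (mul_nonneg hK1 (Real.exp_pos _).le)
  refine ⟨K * Real.exp p, fun M => ?_⟩
  rw [e1]
  refine ENNReal.ofReal_le_ofReal ((hmain M).trans ?_)
  have hM1 : (0 : ℝ) < (M : ℝ) + 1 := by positivity
  have hH : ∑ k ∈ Finset.range M, 1 / ((k : ℝ) + 1) ≤ 1 + Real.log ((M : ℝ) + 1) := by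
    have h1 := harmonic_le_one_add_log M
    have h2 : ((harmonic M : ℚ) : ℝ) = ∑ k ∈ Finset.range M, 1 / ((k : ℝ) + 1) := by
      unfold harmonic
      push_cast
      refine Finset.sum_congr rfl fun k _ => ?_
      rw [one_div]
    have h3 : Real.log (M : ℝ) ≤ Real.log ((M : ℝ) + 1) := by
      rcases Nat.eq_zero_or_pos M with rfl | hM
      · simp
      · exact Real.log_le_log (by exact_mod_cast hM) (by linarith)
    rw [← h2]
    linarith
  rw [mul_assoc]
  refine mul_le_mul_of_nonneg_left ?_ hK1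
  rw [Real.rpow_def_of_pos hM1, ← Real.exp_add]
  refine Real.exp_le_exp.2 ?_
  nlinarith

end Pool.Agent.H66.CBP
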