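import Pool.Agent.H66.CBP.ProbOsc
import Pool.Agent.H66.CBP.Count

/-!
# Many low free particles at the grid times
-/

open MeasureTheory ProbabilityTheory Filter
open scoped NNReal Topology ENNReal

namespace Pool.Agent.H66.CBP

variable {Ω : Type*} {mΩ : MeasurableSpace Ω} {P : Measure Ω} [IsProbabilityMeasure P]
  {𝓕 : Filtration ℝ≥0 mΩ} {W : ℕ → ℝ≥0 → Ω → ℝ}

theorem tendsto_grid {θ : ℝ} (hθ : 0 < θ) : Tendsto (fun k : ℕ => (1 + θ) ^ k) atTop atTop :=
  tendsto_pow_atTop_atTop_of_one_lt (by linarith)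

theorem iIndepFun_eval (hB : IsBrownianFamily P 𝓕 W) (t : ℝ≥0) :
    iIndepFun (fun i ω => W i t ω) P :=
  hB.indep.comp (fun _ f => f t) (fun _ => measurable_pi_apply t)

/-- Large times: the number of low Brownian motions. -/
theorem many_real {a v m : ℝ} (hv : 0 < v) (hm : (a / 2 + v) ^ 2 / 2 < m) (hb : 0 < a / 2 + v) :
    ∀ᶠ t : ℝ in atTop, 1 ≤ t ∧ t ≤ (⌊Real.exp (m * t)⌋₊ : ℝ) *
      ((2 * Real.pi * t) ^ (-(1 / 2) : ℝ) * Real.exp (-(a / 2 + v) - 1 / 2) *
        Real.exp (-((a / 2 + v) ^ 2 * t / 2))) := by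
  set b := a / 2 + v with hbd
  set κ := m - b ^ 2 / 2 with hκ
  have hκ0 : 0 < κ := by linarith
  have hm0 : 0 < m := by nlinarith [sq_nonneg b]
  -- exp (κ t) / t ^ 2 → ∞
  have h1 : Tendsto (fun t : ℝ => Real.exp (κ * t) / t ^ 2) atTop atTop := by
    have h2 := (Real.tendsto_exp_div_pow_atTop 2 : Tendsto (fun x => Real.exp x / x ^ 2) atTop atTop)
    have h3 : Tendsto (fun t : ℝ => κ * t) atTop atTop := tendsto_id.const_mul_atTop hκ0
    have h4 := (h2.comp h3).const_mul_atTop (show 0 < κ ^ 2 by positivity)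
    refine h4.congr' ?_
    filter_upwards [eventually_gt_atTop 0] with t ht
    simp only [Function.comp]
    field_simp
  set c := Real.exp (-b - 1 / 2) / (2 * Real.sqrt (2 * Real.pi)) with hc
  have hc0 : 0 < c := by positivity
  filter_upwards [eventually_ge_atTop 1, h1.eventually_ge_atTop (1 / c)] with t ht1 ht2
  refine ⟨ht1, ?_⟩
  have ht0 : 0 < t := by linarith
  have h5 : Real.exp (m * t) / 2 ≤ (⌊Real.exp (m * t)⌋₊ : ℝ) := by
    have h6 : 1 ≤ Real.exp (m * t) := Real.one_le_exp (by positivity)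
    have h7 : (1 : ℝ) ≤ (⌊Real.exp (m * t)⌋₊ : ℝ) := by
      have := Nat.le_floor (n := 1) (a := Real.exp (m * t)) (by simpa using h6)
      exact_mod_cast this
    have h8 := Nat.lt_floor_add_one (Real.exp (m * t))
    linarith
  have h9 : (2 * Real.pi * t) ^ (-(1 / 2) : ℝ) = (Real.sqrt (2 * Real.pi) * Real.sqrt t)⁻¹ := by
    rw [Real.rpow_neg (by positivity), ← Real.sqrt_eq_rpow, Real.sqrt_mul (by positivity)]
  have h10 : Real.sqrt t ≤ t := by
    rw [Real.sqrt_le_left ht0.le]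
    nlinarith
  have h11 : t ^ 2 ≤ c * Real.exp (κ * t) := by
    rw [le_div_iff₀ (by positivity)] at ht2
    have : 1 / c * t ^ 2 * c = t ^ 2 := by field_simp
    nlinarith [mul_le_mul_of_nonneg_right ht2 hc0.le]
  have h12 : 0 ≤ (2 * Real.pi * t) ^ (-(1 / 2) : ℝ) * Real.exp (-b - 1 / 2) *
        Real.exp (-(b ^ 2 * t / 2)) := by positivity
  refine le_trans ?_ (mul_le_mul_of_nonneg_right h5 h12)
  rw [h9]
  have hs0 : 0 < Real.sqrt t := Real.sqrt_pos.2 ht0
  have h13 : Real.exp (m * t) / 2 * ((Real.sqrt (2 * Real.pi) * Real.sqrt t)⁻¹ *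
      Real.exp (-b - 1 / 2) * Real.exp (-(b ^ 2 * t / 2))) =
      c * Real.exp (κ * t) / Real.sqrt t := by
    have e : Real.exp (κ * t) = Real.exp (m * t) * Real.exp (-(b ^ 2 * t / 2)) := by
      rw [← Real.exp_add]; congr 1; rw [hκ]; ring
    rw [e, hc]
    field_simp
  rw [h13, le_div_iff₀ hs0]
  nlinarith [mul_le_mul_of_nonneg_left h10 ht0.le]

theorem ae_many (hB : IsBrownianFamily P 𝓕 W) {X0 : ℕ → Ω → ℝ}
    (hmono : ∀ᵐ ω ∂P, Monotone fun i => X0 i ω) (hmeas : ∀ i, Measurable (X0 i))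
    {a v θ : ℝ} (hθ : 0 < θ) (ha : 0 < a) (hv0 : 0 < v) (hv : v < a / 2)
    {s : ℝ} (hs : 0 < s)
    (hgr : ∀ p : ℝ, s / a < p → ∃ C : ℝ, ∀ M : ℕ,
      ∫⁻ ω, ENNReal.ofReal (Real.exp (s * X0 M ω)) ∂P ≤ ENNReal.ofReal (C * ((M : ℝ) + 1) ^ p))
    (N : ℕ) :
    ∀ᵐ ω ∂P, ∀ᶠ k : ℕ in atTop, ∃ S : Finset ℕ, N ≤ S.card ∧
      ∀ i ∈ S, X0 i ω + W i (grid θ k) ω ≤ -(v * (1 + θ) ^ k) := by
  classical
  -- parameters
  obtain ⟨m, hm1, hm2⟩ : ∃ m, (a / 2 + v) ^ 2 / 2 < m ∧ m < a ^ 2 / 2 := by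
    apply exists_between
    have : a / 2 + v < a := by linarith
    nlinarith
  have hm0 : 0 < m := by nlinarith [sq_nonneg (a / 2 + v)]
  obtain ⟨p, hp1, hp2⟩ : ∃ p, s / a < p ∧ p < s * a / (2 * m) := by
    apply exists_between
    rw [div_lt_div_iff₀ ha (by positivity)]
    nlinarith
  obtain ⟨C, hC⟩ := hgr p hp1
  have hp0 : 0 < p := lt_trans (by positivity) hp1
  set M : ℕ → ℕ := fun k => ⌊Real.exp (m * (1 + θ) ^ k)⌋₊ with hM
  set κ := s * a / 2 - p * m with hκ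
  have hκ0 : 0 < κ := by
    rw [lt_div_iff₀ (by positivity)] at hp2
    rw [hκ]; linarith
  have hgpos : ∀ k : ℕ, (0 : ℝ) < (1 + θ) ^ k := fun k => by positivity
  -- first event: the particle number `M k` starts too high
  set E : ℕ → Set Ω := fun k => {ω | a / 2 * (1 + θ) ^ k < X0 (M k) ω} with hE
  have hEb : ∀ k, P (E k) ≤ ENNReal.ofReal (|C| * 2 ^ p * κ⁻¹ * ((1 + θ) ^ k)⁻¹) := by
    intro k
    set t := (1 + θ) ^ k with ht
    have ht0 : 0 < t := hgpos k
    have h1 : E k ⊆ {ω | ENNReal.ofReal (Real.exp (s * (a / 2 * t))) ≤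
        ENNReal.ofReal (Real.exp (s * X0 (M k) ω))} := by
      intro ω hω
      simp only [hE, Set.mem_ofPred_eq] at hω ⊢
      apply ENNReal.ofReal_le_ofReal
      apply Real.exp_le_exp.2
      exact mul_le_mul_of_nonneg_left hω.le hs.le
    have h2 : P {ω | ENNReal.ofReal (Real.exp (s * (a / 2 * t))) ≤
        ENNReal.ofReal (Real.exp (s * X0 (M k) ω))} ≤
        (∫⁻ ω, ENNReal.ofReal (Real.exp (s * X0 (M k) ω)) ∂P) /
          ENNReal.ofReal (Real.exp (s * (a / 2 * t))) := by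
      apply meas_ge_le_lintegral_div
      · exact (ENNReal.measurable_ofReal.comp
          (Real.measurable_exp.comp ((hmeas _).const_mul s))).aemeasurable
      · rw [ENNReal.ofReal_ne_zero_iff]; exact Real.exp_pos _
      · exact ENNReal.ofReal_ne_top
    refine (measure_mono h1).trans (h2.trans ?_)
    rw [ENNReal.div_le_iff (by rw [ENNReal.ofReal_ne_zero_iff]; exact Real.exp_pos _)
      ENNReal.ofReal_ne_top]
    refine (hC (M k)).trans ?_
    rw [← ENNReal.ofReal_mul (by positivity)]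
    apply ENNReal.ofReal_le_ofReal
    have h3 : (M k : ℝ) + 1 ≤ 2 * Real.exp (m * t) := by
      have h4 : (M k : ℝ) ≤ Real.exp (m * t) := Nat.floor_le (Real.exp_pos _).le
      have h5 : 1 ≤ Real.exp (m * t) := Real.one_le_exp (by positivity)
      linarith
    have h6 : ((M k : ℝ) + 1) ^ p ≤ 2 ^ p * Real.exp (p * m * t) := by
      calc ((M k : ℝ) + 1) ^ p ≤ (2 * Real.exp (m * t)) ^ p :=
            Real.rpow_le_rpow (by positivity) h3 hp0.le
        _ = 2 ^ p * Real.exp (p * m * t) := by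
            rw [Real.mul_rpow (by norm_num) (Real.exp_pos _).le, ← Real.exp_mul]
            congr 2; ring
    have h7 : C * ((M k : ℝ) + 1) ^ p ≤ |C| * (2 ^ p * Real.exp (p * m * t)) :=
      mul_le_mul (le_abs_self _) h6 (by positivity) (abs_nonneg _)
    refine h7.trans ?_
    have h8 : Real.exp (p * m * t) ≤ κ⁻¹ * t⁻¹ * Real.exp (s * (a / 2 * t)) := by
      have e : Real.exp (s * (a / 2 * t)) = Real.exp (p * m * t) * Real.exp (κ * t) := by
        rw [← Real.exp_add]; congr 1; rw [hκ]; ring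
      rw [e]
      have h9 : κ * t ≤ Real.exp (κ * t) := by linarith [Real.add_one_le_exp (κ * t)]
      have h10 : κ⁻¹ * t⁻¹ * (κ * t) = 1 := by field_simp
      have h11 : 1 ≤ κ⁻¹ * t⁻¹ * Real.exp (κ * t) := by
        rw [← h10]
        exact mul_le_mul_of_nonneg_left h9 (by positivity)
      nlinarith [Real.exp_pos (p * m * t)]
    calc |C| * (2 ^ p * Real.exp (p * m * t))
        ≤ |C| * (2 ^ p * (κ⁻¹ * t⁻¹ * Real.exp (s * (a / 2 * t)))) := by gcongr
      _ = |C| * 2 ^ p * κ⁻¹ * t⁻¹ * Real.exp (s * (a / 2 * t)) := by ring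
  have hEsum : ∑' k, P (E k) ≠ ∞ := by
    apply ne_top_of_le_ne_top _ (ENNReal.tsum_le_tsum hEb)
    exact tsum_ofReal_ne_top ((summable_inv_grid hθ).mul_left _)
  -- second event: too few low Brownian motions
  set b := a / 2 + v with hb
  have hb0 : 0 < b := by positivity
  obtain ⟨k₀, hk₀⟩ := eventually_atTop.1 ((tendsto_grid hθ).eventually
    ((many_real (a := a) hv0 hm1 hb0).and (eventually_ge_atTop (2 * N : ℝ))))
  set F : ℕ → Set Ω := fun k => {ω | ((Finset.range (M k)).filter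
    fun i => W i (grid θ k) ω ≤ -(b * (grid θ k : ℝ))).card < N} with hF
  have hFb : ∀ k, k₀ ≤ k → P (F k) ≤ ENNReal.ofReal (4 * ((1 + θ) ^ k)⁻¹) := by
    intro k hk
    obtain ⟨⟨h1, h2⟩, h3⟩ := hk₀ k hk
    have hq := gauss_lower (grid θ k) (by rw [← NNReal.coe_le_coe, coe_grid hθ]; exact h1) b hb0.le
    rw [coe_grid hθ] at hq
    have h4 : (1 + θ) ^ k ≤ (M k : ℝ) *
        (gaussianReal 0 (grid θ k)).real (Set.Iic (-(b * (grid θ k : ℝ)))) := by
      rw [coe_grid hθ]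
      refine h2.trans ?_
      apply mul_le_mul_of_nonneg_left hq (Nat.cast_nonneg _)
    have h5 := count_low (P := P) (ξ := fun i => W i (grid θ k))
      (fun i => (hB.brownian i).toIsPreBrownianReal.hasLaw_eval (grid θ k))
      (iIndepFun_eval hB (grid θ k)) (M k) N (-(b * (grid θ k : ℝ)))
      (lt_of_lt_of_le (hgpos k) h4) (h3.trans h4)
    have h6 : F k = {ω | ((Finset.range (M k)).filter
        fun i => (fun i => W i (grid θ k)) i ω ≤ -(b * (grid θ k : ℝ))).card < N} := rfl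
    have h7 : P (F k) ≤ ENNReal.ofReal (4 / ((M k : ℝ) *
        (gaussianReal 0 (grid θ k)).real (Set.Iic (-(b * (grid θ k : ℝ)))))) := by
      rw [h6]
      convert h5
    refine h7.trans (ENNReal.ofReal_le_ofReal ?_)
    rw [div_eq_mul_inv]
    apply mul_le_mul_of_nonneg_left _ (by norm_num)
    exact inv_anti₀ (hgpos k) h4
  have hFsum : ∑' k, P (F (k + k₀)) ≠ ∞ := by
    apply ne_top_of_le_ne_top _ (ENNReal.tsum_le_tsum fun k => hFb (k + k₀) (by omega))
    exact tsum_ofReal_ne_top (((summable_nat_add_iff k₀).2 (summable_inv_grid hθ)).mul_left 4)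
  filter_upwards [hmono, ae_eventually_notMem hEsum, ae_eventually_notMem hFsum] with ω h1 h2 h3
  have h3' : ∀ᶠ k in atTop, ω ∉ F k := by
    obtain ⟨k₁, hk₁⟩ := eventually_atTop.1 h3
    filter_upwards [eventually_ge_atTop (k₁ + k₀)] with k hk
    have := hk₁ (k - k₀) (by omega)
    rwa [Nat.sub_add_cancel (by omega)] at this
  filter_upwards [h2, h3'] with k hk hk'
  refine ⟨(Finset.range (M k)).filter
    fun i => W i (grid θ k) ω ≤ -(b * (grid θ k : ℝ)), ?_, ?_⟩
  · exact not_lt.1 hk'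
  · intro i hi
    rw [Finset.mem_filter, Finset.mem_range] at hi
    have h4 : X0 i ω ≤ X0 (M k) ω := h1 hi.1.le
    have h5 : X0 (M k) ω ≤ a / 2 * (1 + θ) ^ k := not_lt.1 hk
    have h6 := hi.2
    rw [coe_grid hθ] at h6
    rw [hb] at h6
    linarith

end Pool.Agent.H66.CBP
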