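import Pool.Agent.H66.CBP.Upper
import Pool.Agent.H66.CBP.ProbMany
import Pool.Agent.H66.CBP.Init

/-!
# Almost sure speed of the ranked particles
-/

open MeasureTheory ProbabilityTheory Filter
open scoped NNReal Topology ENNReal

namespace Pool.Agent.H66.CBP

/-! ### Deterministic preliminaries -/

theorem tendsto_of_sq_summable {g : ℕ → ℝ} (hg : Summable fun k => g k ^ 2) :
    Tendsto g atTop (𝓝 0) := by
  have h1 := hg.tendsto_atTop_zero
  have h2 : Tendsto (fun k => Real.sqrt (g k ^ 2)) atTop (𝓝 (Real.sqrt 0)) :=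
    (Real.continuous_sqrt.tendsto 0).comp h1
  rw [Real.sqrt_zero] at h2
  rw [tendsto_zero_iff_abs_tendsto_zero]
  refine h2.congr fun k => ?_
  simp only [Function.comp, Real.sqrt_sq_eq_abs]

theorem drift_cond {g : ℕ → ℝ} (hg0 : Tendsto g atTop (𝓝 0)) {a : ℝ}
    (ha : -2 * (⨅ n : ℕ, (∑ k ∈ Finset.range (n + 1), g k) / ((n : ℝ) + 1)) < a) :
    0 < a ∧ ∃ γ > 0, ∀ n : ℕ, γ * n ≤ ∑ k ∈ Finset.range n, (g k + a / 2) := by
  set s : ℕ → ℝ := fun n => (∑ k ∈ Finset.range (n + 1), g k) / ((n : ℝ) + 1) with hs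
  have hlim : Tendsto s atTop (𝓝 0) := by
    have h1 := (hg0.cesaro).comp (tendsto_add_atTop_nat 1)
    refine h1.congr fun n => ?_
    simp only [Function.comp, hs]
    push_cast
    rw [div_eq_inv_mul]
  have hbdd : BddBelow (Set.range s) := hlim.bddBelow_range
  have hle : ∀ n, iInf s ≤ s n := fun n => ciInf_le hbdd n
  have hle0 : iInf s ≤ 0 := ge_of_tendsto' hlim hle
  refine ⟨by linarith, a / 2 + iInf s, by linarith, fun n => ?_⟩
  rcases n with _ | n
  · simp
  have h1 := hle n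
  simp only [hs] at h1
  rw [le_div_iff₀ (by positivity)] at h1
  rw [Finset.sum_add_distrib, Finset.sum_const, Finset.card_range, nsmul_eq_mul]
  push_cast
  linarith

theorem lam_pos {g : ℕ → ℝ} {a γ : ℝ} (hγ : 0 < γ)
    (hc : ∀ n : ℕ, γ * n ≤ ∑ k ∈ Finset.range n, (g k + a / 2)) (n : ℕ) : γ < lam g a n := by
  have h1 := hc (n + 1)
  rw [Finset.sum_add_distrib, Finset.sum_const, Finset.card_range, nsmul_eq_mul] at h1
  unfold lam
  push_cast at h1
  have h2 : (0 : ℝ) ≤ n := Nat.cast_nonneg n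
  nlinarith

/-! ### Probabilistic preliminaries -/

variable {Ω : Type*} {mΩ : MeasurableSpace Ω} {P : Measure Ω} [IsProbabilityMeasure P]
  {𝓕 : Filtration ℝ≥0 mΩ} {g : ℕ → ℝ} {W X : ℕ → ℝ≥0 → Ω → ℝ}

theorem exp_nonneg_ae {ξ : Ω → ℝ} {r : ℝ} (hlaw : HasLaw ξ (expMeasure r) P) :
    ∀ᵐ ω ∂P, 0 ≤ ξ ω := by
  have h1 : ∀ᵐ x ∂(expMeasure r), (0 : ℝ) ≤ x := by
    rw [ae_iff]
    have h2 : {x : ℝ | ¬ 0 ≤ x} = Set.Iio 0 := by ext x; simp
    rw [h2, expMeasure, gammaMeasure, withDensity_apply _ measurableSet_Iio]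
    exact lintegral_exponentialPDF_of_nonpos (le_refl 0)
  exact (hlaw.ae_iff (p := fun x => (0 : ℝ) ≤ x) (measurableSet_setOfPred.1 measurableSet_Ici)).2 h1

theorem ae_isPath (hX : IsCompetingSystem P 𝓕 g W X) :
    ∀ᵐ ω ∂P, IsPath g (fun i s => X i s.toNNReal ω) (fun i s => W i s.toNNReal ω) := by
  filter_upwards [hX.continuous, hX.rankable, hX.sde] with ω h1 h2 h3
  refine ⟨fun i => (h1 i).comp continuous_real_toNNReal, fun t => h2 _, fun i t ht => ?_⟩
  have h4 := h3 i t.toNNReal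
  rw [Real.coe_toNNReal _ ht] at h4
  rw [Real.toNNReal_zero]
  exact h4

/-- Counting bound from a pointwise bound. -/
theorem tsum_measure_le {D : ℕ → Set Ω} (hD : ∀ i, MeasurableSet (D i)) {N : ℕ}
    (h : ∀ᵐ ω ∂P, ∀ B : Finset ℕ, (∀ i ∈ B, ω ∈ D i) → B.card ≤ N) :
    ∑' i, P (D i) ≤ N := by
  classical
  calc ∑' i, P (D i) = ∑' i, ∫⁻ ω, (D i).indicator 1 ω ∂P := by
        congr 1; ext i; rw [lintegral_indicator_one (hD i)]
    _ = ∫⁻ ω, ∑' i, (D i).indicator 1 ω ∂P := by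
        rw [lintegral_tsum]
        intro i
        exact (measurable_one.indicator (hD i)).aemeasurable
    _ ≤ ∫⁻ _ω, (N : ℝ≥0∞) ∂P := by
        apply lintegral_mono_ae
        filter_upwards [h] with ω hω
        apply ENNReal.tsum_le_of_sum_range_le
        intro n
        have h1 : ∑ i ∈ Finset.range n, (D i).indicator (1 : Ω → ℝ≥0∞) ω =
            (((Finset.range n).filter fun i => ω ∈ D i).card : ℝ≥0∞) := by
          rw [Finset.card_filter]
          push_cast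
          apply Finset.sum_congr rfl
          intro i _
          simp [Set.indicator_apply]
        rw [h1]
        exact_mod_cast hω _ (fun i hi => (Finset.mem_filter.1 hi).2)
    _ = N := by simp

theorem init_eq (h0 : ∀ᵐ ω ∂P, X 0 0 ω = 0) (n : ℕ) :
    ∀ᵐ ω ∂P, X n 0 ω = ∑ k ∈ Finset.range n, (X (k + 1) 0 ω - X k 0 ω) := by
  filter_upwards [h0] with ω h
  rw [Finset.sum_range_sub (fun k => X k 0 ω), h, sub_zero]

theorem init_lintegral (h0 : ∀ᵐ ω ∂P, X 0 0 ω = 0) (n : ℕ) (s : ℝ) :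
    ∫⁻ ω, ENNReal.ofReal (Real.exp (s * X n 0 ω)) ∂P =
      ∫⁻ ω, ENNReal.ofReal (Real.exp (s * ∑ k ∈ Finset.range n,
        (X (k + 1) 0 ω - X k 0 ω))) ∂P := by
  apply lintegral_congr_ae
  filter_upwards [init_eq h0 n] with ω h
  simp only [← h]

theorem ae_lower (hX : IsCompetingSystem P 𝓕 g W X) (hg0 : Tendsto g atTop (𝓝 0)) {a γ : ℝ}
    (ha : 0 < a) (hγ : 0 < γ) (hc : ∀ n : ℕ, γ * n ≤ ∑ k ∈ Finset.range n, (g k + a / 2))
    (h0 : ∀ᵐ ω ∂P, X 0 0 ω = 0)
    (hind : iIndepFun (fun (n : ℕ) (ω : Ω) => X (n + 1) 0 ω - X n 0 ω) P)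
    (hlaw : ∀ n : ℕ, HasLaw (fun ω => X (n + 1) 0 ω - X n 0 ω) (expMeasure (lam g a n)) P)
    {ε : ℝ} (hε : 0 < ε) :
    ∀ᵐ ω ∂P, ∀ᶠ u : ℝ in atTop, ∀ i, -((a / 2 + 2 * ε) * u) ≤ X i u.toNNReal ω := by
  obtain ⟨θ₀, hθ₀, hdet⟩ := lower_det hg0 ha hε hγ hc
  set θ := min θ₀ (ε / (2 * (a + ε))) with hθd
  have hθ : 0 < θ := lt_min hθ₀ (by positivity)
  obtain ⟨ρ, hρ, hdet⟩ := hdet θ hθ (min_le_left _ _)
  have hθ2 : θ * (a + ε) ≤ ε / 2 := by
    have : θ ≤ ε / (2 * (a + ε)) := min_le_right _ _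
    rw [le_div_iff₀ (by positivity)] at this
    linarith
  obtain ⟨N, hN⟩ := exists_few hg0 (δ := ε / 4) (by positivity)
  -- free particles
  have hsum : ∑' i, ∫⁻ ω, ENNReal.ofReal (Real.exp (-(a + ε / 4) * X i 0 ω)) ∂P < ∞ := by
    have h1 := init_sum hg0 (fun n => hγ.trans (lam_pos hγ hc n)) ha hlaw hind
      (θ := a + ε / 4) (by linarith)
    refine lt_of_le_of_lt (le_of_eq ?_) h1
    congr 1
    ext i
    exact init_lintegral h0 i _
  have hfree := ae_free hX.brownian (X0 := fun i => X i 0) (fun i => hX.adapted i 0)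
    (ϑ := a + ε / 4) (v := a / 2 + ε / 2) (θ := θ) (by positivity) hsum hθ (by nlinarith)
  -- oscillations
  have hosc := ae_osc hX.brownian hθ hρ
    (fun k i => {ω | ε / 4 * (1 + θ) ^ k ≤
      |X i (grid θ k) ω - X i 0 ω - W i (grid θ k) ω|})
    (fun k i => by
      have h1 : Measurable[𝓕 (grid θ k)] (X i (grid θ k)) := hX.adapted i (grid θ k)
      have h2 : Measurable[𝓕 (grid θ k)] (X i 0) :=
        (hX.adapted i).measurable_le (zero_le (a := grid θ k))
      have h3 : Measurable[𝓕 (grid θ k)] (W i (grid θ k)) := hX.brownian.adapted i (grid θ k)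
      exact measurableSet_le measurable_const (continuous_abs.measurable.comp ((h1.sub h2).sub h3)))
    N (fun k => by
      apply tsum_measure_le
      · intro i
        apply measurableSet_le measurable_const
        apply Measurable.abs
        exact Measurable.sub (Measurable.sub (hX.adapted i).measurable
          (hX.adapted i).measurable) (hX.brownian.adapted i).measurable
      · filter_upwards [ae_isPath hX] with ω hp B hB
        apply hN _ _ hp ((1 + θ) ^ k) (by positivity) B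
        intro i hi
        have : ε / 4 * (1 + θ) ^ k ≤
          |X i (grid θ k) ω - X i 0 ω - W i (grid θ k) ω| := hB i hi
        simpa [grid] using this)
  filter_upwards [ae_isPath hX, hfree, hosc] with ω h1 h2 h3
  apply hdet _ _ h1
  · filter_upwards [h2] with k hk i u hu1 hu2
    have := hk i u hu1 hu2
    simpa using this
  · filter_upwards [h3] with k hk i hi u hu1 hu2
    apply hk i _ u hu1 hu2
    show ε / 4 * (1 + θ) ^ k ≤ |X i (grid θ k) ω - X i 0 ω - W i (grid θ k) ω|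
    simpa [grid] using hi

theorem ae_upper (hX : IsCompetingSystem P 𝓕 g W X) (hg0 : Tendsto g atTop (𝓝 0)) {a γ : ℝ}
    (ha : 0 < a) (hγ : 0 < γ) (hc : ∀ n : ℕ, γ * n ≤ ∑ k ∈ Finset.range n, (g k + a / 2))
    (h0 : ∀ᵐ ω ∂P, X 0 0 ω = 0)
    (hind : iIndepFun (fun (n : ℕ) (ω : Ω) => X (n + 1) 0 ω - X n 0 ω) P)
    (hlaw : ∀ n : ℕ, HasLaw (fun ω => X (n + 1) 0 ω - X n 0 ω) (expMeasure (lam g a n)) P)
    {ε : ℝ} (hε : 0 < ε) (hεa : ε < a / 2) (K : ℕ) :
    ∀ᵐ ω ∂P, ∀ᶠ u : ℝ in atTop, X (rankPerm (fun j => X j u.toNNReal ω) K) u.toNNReal ω ≤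
      -((a / 2 - 3 * ε) * u) := by
  obtain ⟨θ, hθ, N, hdet⟩ := upper_det hg0 ha hε K
  have hdet := hdet θ hθ le_rfl
  -- many low particles
  have hmono : ∀ᵐ ω ∂P, Monotone fun i => X i 0 ω := by
    have : ∀ᵐ ω ∂P, ∀ n : ℕ, 0 ≤ X (n + 1) 0 ω - X n 0 ω :=
      ae_all_iff.2 fun n => exp_nonneg_ae (hlaw n)
    filter_upwards [this] with ω h
    exact monotone_nat_of_le_succ fun n => by linarith [h n]
  have hmany := ae_many hX.brownian (X0 := fun i => X i 0) hmono
    (fun i => (hX.adapted i).measurable) (a := a) (v := a / 2 - ε) (θ := θ) hθ ha (by linarith)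
    (by linarith) (s := γ) hγ
    (fun p hp => by
      obtain ⟨C, hC⟩ := init_growth hg0 ha hlaw hind (s := γ) (p := p) hγ
        (fun n => lam_pos hγ hc n) hp
      refine ⟨C, fun M => ?_⟩
      rw [init_lintegral h0 M]
      exact hC M) N
  have hosc := ae_osc hX.brownian hθ (ρ := ε / 2) (by positivity)
    (fun k i => {ω | cnt (fun j => X j (grid θ k) ω) i ≤ K})
    (fun k i => by
      exact measurableSet_le (measurable_cnt (fun j => hX.adapted j _) i) measurable_const)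
    (K + 1) (fun k => by
      apply tsum_measure_le
      · intro i
        exact measurableSet_le (measurable_cnt (fun j => (hX.adapted j).measurable) i)
          measurable_const
      · filter_upwards [hX.rankable] with ω hr B hB
        have hs := rankPerm_spec (hr (grid θ k))
        set p := rankPerm fun j => X j (grid θ k) ω with hp
        have h1 : B.map p.symm.toEmbedding ⊆ Finset.range (K + 1) := by
          intro m hm
          rw [Finset.mem_map] at hm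
          obtain ⟨i, hi, rfl⟩ := hm
          have h2 : cnt (fun j => X j (grid θ k) ω) i ≤ K := hB i hi
          rw [hs.cnt_eq i] at h2
          rw [Finset.mem_range, Nat.lt_succ_iff]
          exact_mod_cast h2
        have h3 := Finset.card_le_card h1
        rwa [Finset.card_map, Finset.card_range] at h3)
  filter_upwards [ae_isPath hX, hmany, hosc, hX.rankable] with ω h1 h2 h3 h4
  have := hdet _ _ h1
  apply this
  · filter_upwards [h2] with k hk
    obtain ⟨S, hS1, hS2⟩ := hk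
    refine ⟨S, hS1, fun i hi => ?_⟩
    have := hS2 i hi
    simpa [grid] using this
  · filter_upwards [h3] with k hk i hi u hu1 hu2
    apply hk i _ u hu1 hu2
    show cnt (fun j => X j (grid θ k) ω) i ≤ K
    rw [(rankPerm_spec (h4 (grid θ k))).cnt_eq i]
    exact_mod_cast hi

/-- **Almost sure speed.** -/
theorem speed (hX : IsCompetingSystem P 𝓕 g W X) (hg0 : Tendsto g atTop (𝓝 0)) {a γ : ℝ}
    (ha : 0 < a) (hγ : 0 < γ) (hc : ∀ n : ℕ, γ * n ≤ ∑ k ∈ Finset.range n, (g k + a / 2))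
    (h0 : ∀ᵐ ω ∂P, X 0 0 ω = 0)
    (hind : iIndepFun (fun (n : ℕ) (ω : Ω) => X (n + 1) 0 ω - X n 0 ω) P)
    (hlaw : ∀ n : ℕ, HasLaw (fun ω => X (n + 1) 0 ω - X n 0 ω) (expMeasure (lam g a n)) P)
    (K : ℕ) :
    ∀ᵐ ω ∂P, Tendsto (fun t : ℝ≥0 => X (rankPerm (fun j => X j t ω) K) t ω / (t : ℝ)) atTop
      (𝓝 (-(a / 2))) := by
  have hlow : ∀ᵐ ω ∂P, ∀ n : ℕ, ∀ᶠ u : ℝ in atTop, ∀ i,
      -((a / 2 + 2 * (1 / ((n : ℝ) + 1))) * u) ≤ X i u.toNNReal ω :=
    ae_all_iff.2 fun n => ae_lower hX hg0 ha hγ hc h0 hind hlaw (by positivity)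
  have hup : ∀ᵐ ω ∂P, ∀ n : ℕ, ∀ᶠ u : ℝ in atTop,
      X (rankPerm (fun j => X j u.toNNReal ω) K) u.toNNReal ω ≤
        -((a / 2 - 3 * (min (a / 4) (1 / ((n : ℝ) + 1)))) * u) :=
    ae_all_iff.2 fun n => ae_upper hX hg0 ha hγ hc h0 hind hlaw (by positivity)
      (lt_of_le_of_lt (min_le_left _ _) (by linarith)) K
  filter_upwards [hlow, hup] with ω h1 h2
  rw [Metric.tendsto_atTop']
  intro η hη
  obtain ⟨n, hn⟩ := exists_nat_one_div_lt (show 0 < η / 3 by positivity)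
  have h3 := (h1 n).and (h2 n)
  obtain ⟨u₀, hu₀⟩ := eventually_atTop.1 h3
  refine ⟨max 1 u₀.toNNReal, fun t ht => ?_⟩
  have ht1 : (1 : ℝ) < t := by
    have : (1 : ℝ≥0) < t := lt_of_le_of_lt (le_max_left _ _) ht
    exact_mod_cast this
  have ht2 : u₀ ≤ t := by
    have : u₀.toNNReal < t := lt_of_le_of_lt (le_max_right _ _) ht
    exact (Real.le_coe_toNNReal u₀).trans (by exact_mod_cast this.le)
  obtain ⟨h4, h5⟩ := hu₀ t ht2
  rw [Real.toNNReal_coe] at h5
  have h6 := h4 (rankPerm (fun j => X j t ω) K)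
  rw [Real.toNNReal_coe] at h6
  have ht0 : (0 : ℝ) < t := by linarith
  set y := X (rankPerm (fun j => X j t ω) K) t ω with hy
  have h7 : -(a / 2 + 2 * (1 / ((n : ℝ) + 1))) ≤ y / t := by
    rw [le_div_iff₀ ht0]; linarith
  have h8 : y / t ≤ -(a / 2 - 3 * (1 / ((n : ℝ) + 1))) := by
    rw [div_le_iff₀ ht0]
    refine h5.trans ?_
    have : min (a / 4) (1 / ((n : ℝ) + 1)) ≤ 1 / ((n : ℝ) + 1) := min_le_right _ _
    nlinarith
  have h9 : 0 < 1 / ((n : ℝ) + 1) := by positivity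
  rw [Real.dist_eq, abs_lt]
  constructor <;> linarith

end Pool.Agent.H66.CBP
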