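import Pool.Agent.H66.CBP.Window

/-!
# Deterministic lower bound
-/

open MeasureTheory ProbabilityTheory Filter
open scoped NNReal Topology ENNReal

namespace Pool.Agent.H66.CBP

variable {g : ℕ → ℝ} {x w : ℕ → ℝ → ℝ}

/-- The recursion `v (k+1) ≤ v k - γ θ √(v k) + C θ²` forces `v ≤ S` eventually. -/
theorem seq_lemma {v : ℕ → ℝ} {c d : ℝ} (hc : 0 < c) (hd : 0 < d) (hv : ∀ k, 0 ≤ v k) (k₀ : ℕ)
    (hrec : ∀ k, k₀ ≤ k → v (k + 1) ≤ v k - c * Real.sqrt (v k) + d) :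
    ∀ᶠ k in atTop, v k ≤ (2 * d / c) ^ 2 + d := by
  set s := 2 * d / c with hs
  have hs0 : 0 < s := by positivity
  have hcs : c * s = 2 * d := by rw [hs]; field_simp
  -- stays below
  have hstay : ∀ k, k₀ ≤ k → v k ≤ s ^ 2 + d → v (k + 1) ≤ s ^ 2 + d := by
    intro k hk hvk
    have h1 := hrec k hk
    have h0 := Real.sqrt_nonneg (v k)
    rcases le_or_gt (Real.sqrt (v k)) s with h2 | h2
    · have h3 : v k ≤ s ^ 2 := by
        have := Real.sq_sqrt (hv k)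
        nlinarith
      have h4 : 0 ≤ c * Real.sqrt (v k) := by positivity
      linarith
    · have h4 : c * s ≤ c * Real.sqrt (v k) := by nlinarith
      linarith
  -- gets below once
  have honce : ∃ k, k₀ ≤ k ∧ v k ≤ s ^ 2 + d := by
    by_contra hcon
    push Not at hcon
    have hdec : ∀ n : ℕ, v (k₀ + n) ≤ v k₀ - n * d := by
      intro n
      induction n with
      | zero => simp
      | succ n ih =>
        have h1 := hrec (k₀ + n) (by omega)
        have h2 := hcon (k₀ + n) (by omega)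
        have h3 : s ≤ Real.sqrt (v (k₀ + n)) := by
          apply Real.le_sqrt_of_sq_le
          linarith
        have h4 : c * s ≤ c * Real.sqrt (v (k₀ + n)) := by nlinarith
        push_cast
        have e : k₀ + (n + 1) = k₀ + n + 1 := by ring
        rw [e]
        linarith
    obtain ⟨n, hn⟩ := exists_nat_gt (v k₀ / d)
    have h5 := hdec n
    have h6 := hv (k₀ + n)
    rw [div_lt_iff₀ hd] at hn
    linarith
  obtain ⟨k₁, hk₁, hv₁⟩ := honce
  filter_upwards [eventually_ge_atTop k₁] with k hk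
  induction k, hk using Nat.le_induction with
  | base => exact hv₁
  | succ k hk ih => exact hstay k (hk₁.trans hk) ih

/-- Locating a large time in the geometric grid. -/
theorem grid_locate {θ : ℝ} (hθ : 0 < θ) {u : ℝ} (hu : 1 ≤ u) :
    ∃ k : ℕ, (1 + θ) ^ k ≤ u ∧ u ≤ (1 + θ) ^ (k + 1) := by
  obtain ⟨k, hk1, hk2⟩ := exists_nat_pow_near hu (by linarith : (1 : ℝ) < 1 + θ)
  exact ⟨k, hk1, hk2.le⟩

theorem grid_large {θ : ℝ} (hθ : 0 < θ) (k₀ : ℕ) {u : ℝ} (hu : (1 + θ) ^ (k₀ + 1) < u) {k : ℕ}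
    (hk : u ≤ (1 + θ) ^ (k + 1)) : k₀ ≤ k := by
  by_contra h
  have : (1 + θ) ^ (k + 1) ≤ (1 + θ) ^ (k₀ + 1) :=
    pow_le_pow_right₀ (by linarith) (by omega)
  linarith

theorem lower_det (hg0 : Tendsto g atTop (𝓝 0)) {a γ ε : ℝ} (ha : 0 < a) (hε : 0 < ε)
    (hγ0 : 0 < γ) (hc : ∀ n : ℕ, γ * n ≤ ∑ k ∈ Finset.range n, (g k + a / 2)) :
    ∃ θ₀ > 0, ∀ θ, 0 < θ → θ ≤ θ₀ → ∃ ρ > 0, ∀ x w : ℕ → ℝ → ℝ, IsPath g x w →
      (∀ᶠ k : ℕ in atTop, ∀ i u, (1 + θ) ^ k ≤ u → u ≤ (1 + θ) ^ (k + 1) →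
        -((a / 2 + ε / 2) * (1 + θ) ^ k) ≤ x i 0 + w i u) →
      (∀ᶠ k : ℕ in atTop, ∀ i,
        ε / 4 * (1 + θ) ^ k ≤ |x i ((1 + θ) ^ k) - x i 0 - w i ((1 + θ) ^ k)| →
        ∀ u, (1 + θ) ^ k ≤ u → u ≤ (1 + θ) ^ (k + 1) →
          |w i u - w i ((1 + θ) ^ k)| ≤ ρ * (1 + θ) ^ k) →
      ∀ᶠ u : ℝ in atTop, ∀ i, -((a / 2 + 2 * ε) * u) ≤ x i u := by
  obtain ⟨G, hG⟩ : ∃ G, ∀ k, |g k| ≤ G := by
    obtain ⟨G, hG⟩ := hg0.abs.bddAbove_range
    exact ⟨G, fun k => hG ⟨k, rfl⟩⟩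
  have hG0 : 0 ≤ G := (abs_nonneg _).trans (hG 0)
  obtain ⟨N, hN⟩ := exists_few hg0 (δ := ε / 4) (by positivity)
  set β := a / 2 + ε with hβ
  have hβ0 : 0 < β := by positivity
  set G' := G + |β| with hG'
  have hG'0 : 0 < G' := by have := abs_pos.2 hβ0.ne'; positivity
  have hγG' : γ ≤ G' := by
    have h1 := hc 1
    simp only [Nat.cast_one, mul_one, Finset.range_one, Finset.sum_singleton] at h1
    have h2 := (abs_le.1 (hG 0)).2
    have h3 : a / 2 ≤ |β| := by rw [abs_of_pos hβ0]; linarith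
    linarith
  have hcβ : ∀ n : ℕ, γ * n ≤ ∑ k ∈ Finset.range n, (g k + β) := by
    intro n
    refine (hc n).trans (Finset.sum_le_sum fun k _ => ?_)
    linarith
  set C₀ := 12 * (N : ℝ) * G' ^ 2 + 1 with hC₀
  have hC₀0 : 0 < C₀ := by positivity
  set C₁ := 2 * C₀ / γ + C₀ + 1 with hC₁
  have hC₁0 : 0 < C₁ := by positivity
  refine ⟨min 1 (min (ε / (4 * (G + 1))) (ε / (C₁ + 2 * G'))), by positivity, ?_⟩
  intro θ hθ hθ₀
  have hθ1 : θ ≤ 1 := hθ₀.trans (min_le_left _ _)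
  have hθ2 : θ * G ≤ ε / 4 := by
    have h1 : θ ≤ ε / (4 * (G + 1)) := hθ₀.trans ((min_le_right _ _).trans (min_le_left _ _))
    rw [le_div_iff₀ (by positivity)] at h1
    nlinarith
  have hθ3 : θ * (C₁ + 2 * G') ≤ ε := by
    have h1 : θ ≤ ε / (C₁ + 2 * G') := hθ₀.trans ((min_le_right _ _).trans (min_le_right _ _))
    rwa [le_div_iff₀ (by positivity)] at h1
  refine ⟨γ * θ / 2, by positivity, ?_⟩
  intro x w hp hfree hosc
  obtain ⟨k₀, hk₀⟩ := eventually_atTop.1 (hfree.and hosc)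
  have htpos : ∀ k : ℕ, 0 < (1 + θ) ^ k := fun k => by positivity
  have hstep : ∀ k : ℕ, (1 + θ) ^ (k + 1) = (1 + θ) ^ k + θ * (1 + θ) ^ k := fun k => by ring
  -- candidates
  have hcand : ∀ k, k₀ ≤ k → ∃ B : Finset ℕ, B.card ≤ N ∧
      (∀ u, (1 + θ) ^ k ≤ u → u ≤ (1 + θ) ^ (k + 1) → ∀ i, i ∉ B → -(β * u) ≤ x i u) ∧
      (∀ i ∈ B, ε / 4 * (1 + θ) ^ k ≤ |x i ((1 + θ) ^ k) - x i 0 - w i ((1 + θ) ^ k)|) := by
    intro k hk
    have hfin : {i | ε / 4 * (1 + θ) ^ k ≤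
        |x i ((1 + θ) ^ k) - x i 0 - w i ((1 + θ) ^ k)|}.Finite := by
      by_contra hinf
      obtain ⟨B, hB1, hB2⟩ := Set.Infinite.exists_subset_card_eq hinf (N + 1)
      have := hN x w hp _ (htpos k) B (fun i hi => hB1 hi)
      omega
    refine ⟨hfin.toFinset, ?_, ?_, ?_⟩
    · apply hN x w hp _ (htpos k)
      intro i hi
      simpa using hi
    · intro u hu1 hu2 i hi
      by_contra hlow
      push Not at hlow
      apply hi
      rw [Set.Finite.mem_toFinset, Set.mem_ofPred_eq]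
      have h1 := (hk₀ k hk).1 i u hu1 hu2
      have h2 := hp.drift_bound hG i (htpos k).le hu1
      have h3 : u - (1 + θ) ^ k ≤ θ * (1 + θ) ^ k := by rw [hstep k] at hu2; linarith
      have h4 : G * (u - (1 + θ) ^ k) ≤ ε / 4 * (1 + θ) ^ k := by
        calc G * (u - (1 + θ) ^ k) ≤ G * (θ * (1 + θ) ^ k) := mul_le_mul_of_nonneg_left h3 hG0
          _ = (θ * G) * (1 + θ) ^ k := by ring
          _ ≤ ε / 4 * (1 + θ) ^ k := mul_le_mul_of_nonneg_right hθ2 (htpos k).le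
      have h5 : x i u - x i 0 - w i u < -(ε / 2 * (1 + θ) ^ k) := by
        have : β * u ≥ β * (1 + θ) ^ k := mul_le_mul_of_nonneg_left hu1 hβ0.le
        rw [hβ] at this hlow
        nlinarith
      have h6 := (abs_le.1 h2).1
      rw [le_abs]
      right
      linarith
    · intro i hi
      rw [Set.Finite.mem_toFinset, Set.mem_ofPred_eq] at hi
      exact hi
  -- the Lyapunov function
  set V : ℕ → ℝ := fun k => ∑' i, psi x β i ((1 + θ) ^ k) ^ 2 with hV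
  have hVB : ∀ (k : ℕ) (B : Finset ℕ), (∀ i, i ∉ B → -(β * (1 + θ) ^ k) ≤ x i ((1 + θ) ^ k)) →
      V k = ∑ i ∈ B, psi x β i ((1 + θ) ^ k) ^ 2 := by
    intro k B hB
    simp only [hV]
    rw [tsum_eq_sum]
    intro i hi
    have : psi x β i ((1 + θ) ^ k) = 0 := by
      unfold psi
      exact max_eq_left (by linarith [hB i hi])
    rw [this]; ring
  have hV0 : ∀ k, 0 ≤ V k := fun k => tsum_nonneg fun i => sq_nonneg _
  have hrecV : ∀ k, k₀ ≤ k → V (k + 1) ≤ V k - γ * (θ * (1 + θ) ^ k) * Real.sqrt (V k) +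
      C₀ * (θ * (1 + θ) ^ k) ^ 2 := by
    intro k hk
    obtain ⟨B, hB1, hB2, hB3⟩ := hcand k hk
    have h1 := window_ineq hp (β := β) (G' := G') (γ := γ) (r := γ * θ / 2 * (1 + θ) ^ k)
      (t := (1 + θ) ^ k) (h := θ * (1 + θ) ^ k) (N := N) hG le_rfl hγ0.le hγG' (htpos k).le
      (by linarith) (by positivity) hcβ B hB1
      (fun u hu1 hu2 i hi => hB2 u hu1 (by rw [hstep k]; exact hu2) i hi)
      (fun i hi u hu1 hu2 => (hk₀ k hk).2 i (hB3 i hi) u hu1 (by rw [hstep k]; exact hu2))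
    rw [← hstep k] at h1
    rw [hVB k B (fun i hi => hB2 _ le_rfl (by rw [hstep k]; have := htpos k; nlinarith) i hi),
      hVB (k + 1) B (fun i hi => hB2 _ (by rw [hstep k]; have := htpos k; nlinarith) le_rfl i hi)]
    have h2 : 12 * (N : ℝ) * G' ^ 2 * (θ * (1 + θ) ^ k) ^ 2 ≤ C₀ * (θ * (1 + θ) ^ k) ^ 2 := by
      apply mul_le_mul_of_nonneg_right _ (sq_nonneg _)
      rw [hC₀]; linarith
    linarith
  -- normalised
  set v : ℕ → ℝ := fun k => V k / ((1 + θ) ^ k) ^ 2 with hv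
  have hv0 : ∀ k, 0 ≤ v k := fun k => div_nonneg (hV0 k) (sq_nonneg _)
  have hsv : ∀ k, Real.sqrt (v k) = Real.sqrt (V k) / (1 + θ) ^ k := by
    intro k
    simp only [hv]
    rw [Real.sqrt_div (hV0 k), Real.sqrt_sq (htpos k).le]
  have hrecv : ∀ k, k₀ ≤ k → v (k + 1) ≤ v k - γ * θ * Real.sqrt (v k) + C₀ * θ ^ 2 := by
    intro k hk
    have h1 := hrecV k hk
    have h2 : v (k + 1) ≤ V (k + 1) / ((1 + θ) ^ k) ^ 2 := by
      simp only [hv]
      apply div_le_div_of_nonneg_left (hV0 _) (by positivity)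
      apply pow_le_pow_left₀ (htpos k).le
      rw [hstep k]; have := htpos k; nlinarith
    refine h2.trans ?_
    rw [div_le_iff₀ (by positivity)]
    have h3 : (v k - γ * θ * Real.sqrt (v k) + C₀ * θ ^ 2) * ((1 + θ) ^ k) ^ 2 =
        V k - γ * (θ * (1 + θ) ^ k) * Real.sqrt (V k) + C₀ * (θ * (1 + θ) ^ k) ^ 2 := by
      rw [hsv k]
      simp only [hv]
      have := (htpos k).ne'
      field_simp
    rw [h3]; exact h1
  have hev := seq_lemma (c := γ * θ) (d := C₀ * θ ^ 2) (by positivity) (by positivity) hv0 k₀ hrecv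
  have hev2 : ∀ᶠ k in atTop, Real.sqrt (V k) ≤ C₁ * θ * (1 + θ) ^ k := by
    filter_upwards [hev] with k hk
    have h1 : Real.sqrt (v k) ≤ C₁ * θ := by
      rw [Real.sqrt_le_left (by positivity)]
      refine hk.trans ?_
      have e : 2 * (C₀ * θ ^ 2) / (γ * θ) = 2 * C₀ / γ * θ := by field_simp
      rw [e]
      have h2 : (2 * C₀ / γ * θ) ^ 2 + C₀ * θ ^ 2 = ((2 * C₀ / γ) ^ 2 + C₀) * θ ^ 2 := by ring
      rw [h2, mul_pow]
      apply mul_le_mul_of_nonneg_right _ (sq_nonneg _)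
      rw [hC₁]
      have h3 : 0 < 2 * C₀ / γ := by positivity
      nlinarith
    rw [hsv k, div_le_iff₀ (htpos k)] at h1
    exact h1
  obtain ⟨k₁, hk₁⟩ := eventually_atTop.1 hev2
  set k₂ := max k₀ k₁ with hk₂
  filter_upwards [eventually_gt_atTop (max 1 ((1 + θ) ^ (k₂ + 1)))] with u hu i
  have hu1 : 1 ≤ u := (le_max_left _ _).trans hu.le
  have hu2 : (1 + θ) ^ (k₂ + 1) < u := (le_max_right _ _).trans_lt hu
  obtain ⟨k, hk1, hk2⟩ := grid_locate hθ hu1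
  have hk : k₂ ≤ k := grid_large hθ k₂ hu2 hk2
  have hkk₀ : k₀ ≤ k := (le_max_left _ _).trans hk
  have hkk₁ : k₁ ≤ k := (le_max_right _ _).trans hk
  obtain ⟨B, hB1, hB2, hB3⟩ := hcand k hkk₀
  have hu0 : 0 < u := by linarith
  by_cases hi : i ∈ B
  · have h1 := move_bound hp (β := β) (G' := G') (γ := γ) (r := γ * θ / 2 * (1 + θ) ^ k)
      (t := (1 + θ) ^ k) (h := θ * (1 + θ) ^ k) hG le_rfl hγG' (htpos k).le (by linarith)
      (by positivity) (i := i)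
      (fun u hu1 hu2 => (hk₀ k hkk₀).2 i (hB3 i hi) u hu1 (by rw [hstep k]; exact hu2))
      (u := u) hk1 (by rw [← hstep k]; exact hk2)
    have h2 : psi x β i ((1 + θ) ^ k) ≤ Real.sqrt (V k) := by
      apply Real.le_sqrt_of_sq_le
      rw [hVB k B (fun i hi => hB2 _ le_rfl (by rw [hstep k]; have := htpos k; nlinarith) i hi)]
      exact Finset.single_le_sum (f := fun i => psi x β i ((1 + θ) ^ k) ^ 2)
        (fun i _ => sq_nonneg _) hi
    have h3 := hk₁ k hkk₁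
    have h4 : -(β * (1 + θ) ^ k) - x i ((1 + θ) ^ k) ≤ psi x β i ((1 + θ) ^ k) := le_max_right _ _
    have h5 := (abs_le.1 h1).2
    have h6 : θ * (C₁ + 2 * G') * (1 + θ) ^ k ≤ ε * u := by
      calc θ * (C₁ + 2 * G') * (1 + θ) ^ k ≤ ε * (1 + θ) ^ k :=
            mul_le_mul_of_nonneg_right hθ3 (htpos k).le
        _ ≤ ε * u := mul_le_mul_of_nonneg_left hk1 hε.le
    rw [hβ] at *
    nlinarith
  · have h1 := hB2 u hk1 hk2 i hi
    rw [hβ] at h1
    nlinarith [mul_pos hε hu0]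

end Pool.Agent.H66.CBP
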