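import Pool.Agent.H66.CBP.ContMax

/-!
# Two maximal inequalities for a Brownian motion relative to a filtration (module OscExp)

Both follow from `cont_max`.

`osc_bound`: take `M u = 1_D * (W u - W t)^2` (`t ≤ u`; for `u < t` take e.g. `W (max u t)` so that
the paths are continuous and `M` is defined for all `u`).  Submartingale property: for `A ∈ 𝓕 s`,
`t ≤ s ≤ u`, write `W u - W t = a + ξ`, `a = W s - W t`, `ξ = W u - W s`; then
`∫_A 1_D (a+ξ)^2 = ∫_A 1_D a^2 + 2 ∫ 1_{A∩D} a ξ + ∫ 1_{A∩D} ξ^2` and `∫ 1_{A∩D} a ξ = 0`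
because `ξ` is centred, square integrable and independent of `𝓕 s`
(`IndepFun.integral_mul_eq_mul_integral` or similar); `∫ M (t+h) = P(D) * h`
(variance of `W (t+h) - W t`, `IsPreBrownianReal.hasLaw_sub`, and independence of `𝓕 t`).
The event `r < |W u - W t|` on `D` is `r^2 < M u`.

`exp_max`: if `∫⁻ exp(-θ Z) = ∞` there is nothing to prove.  Otherwise take
`M u = exp(-θ Z) * exp(-θ (W u - W 0))`; `∫_A M u = ∫ 1_A M s * exp(-θ (W u - W s))
 = (∫_A M s) * exp(θ^2 (u-s)/2) ≥ ∫_A M s` by independence and `mgf_gaussianReal`.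
The event `Z + W u < c` is (a.s., `W 0 = 0`) `exp(-θ c) < M u`.
-/

open MeasureTheory ProbabilityTheory Filter
open scoped NNReal Topology ENNReal

namespace Pool.Agent.H66.CBP

section aux

variable {Ω : Type*} {mΩ : MeasurableSpace Ω} {P : Measure Ω} [IsProbabilityMeasure P]
    {𝓕 : Filtration ℝ≥0 mΩ} {W : ℝ≥0 → Ω → ℝ}

private theorem oe_law (hB : IsBrownianReal W P) {s u : ℝ≥0} (hsu : s ≤ u) :
    HasLaw (fun ω => W u ω - W s ω) (gaussianReal 0 (u - s)) P := by
  have h1 := hB.toIsPreBrownianReal.hasLaw_sub u s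
  have h2 : nndist u.1 s.1 = u - s := by
    apply NNReal.eq
    rw [coe_nndist, NNReal.coe_sub hsu]
    change |(u : ℝ) - (s : ℝ)| = _
    rw [abs_of_nonneg (sub_nonneg.2 (NNReal.coe_le_coe.2 hsu))]
  rw [h2] at h1
  exact h1

private theorem oe_sq_int (v : ℝ≥0) : Integrable (fun x : ℝ => x ^ 2) (gaussianReal 0 v) := by
  have h := memLp_id_gaussianReal (μ := 0) (v := v) 2
  exact h.integrable_sq

private theorem oe_sq_val (v : ℝ≥0) : ∫ x, x ^ 2 ∂(gaussianReal 0 v) = v := by
  have h := variance_fun_id_gaussianReal (μ := 0) (v := v)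
  rw [variance_eq_integral measurable_id'.aemeasurable] at h
  simpa [integral_id_gaussianReal] using h

private theorem oe_xi_sq_int (hB : IsBrownianReal W P) {s u : ℝ≥0} (hsu : s ≤ u) :
    Integrable (fun ω => (W u ω - W s ω) ^ 2) P := by
  have hl := oe_law hB hsu
  have h1 : Integrable (fun x : ℝ => x ^ 2) (P.map fun ω => W u ω - W s ω) := by
    rw [hl.map_eq]
    exact oe_sq_int _
  exact h1.comp_aemeasurable hl.aemeasurable

private theorem oe_xi_int (hB : IsBrownianReal W P) {s u : ℝ≥0} (hsu : s ≤ u) :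
    Integrable (fun ω => W u ω - W s ω) P := by
  have hl := oe_law hB hsu
  have h1 : Integrable (fun x : ℝ => x) (P.map fun ω => W u ω - W s ω) := by
    rw [hl.map_eq]
    have h := memLp_id_gaussianReal (μ := 0) (v := u - s) 1
    exact h.integrable (by simp)
  exact h1.comp_aemeasurable hl.aemeasurable

private theorem oe_xi_mean (hB : IsBrownianReal W P) {s u : ℝ≥0} (hsu : s ≤ u) :
    ∫ ω, (W u ω - W s ω) ∂P = 0 := by
  have h := (oe_law hB hsu).integral_eq
  rw [h, integral_id_gaussianReal]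

private theorem oe_xi_sq (hB : IsBrownianReal W P) {s u : ℝ≥0} (hsu : s ≤ u) :
    ∫ ω, (W u ω - W s ω) ^ 2 ∂P = (u : ℝ) - s := by
  have h := (oe_law hB hsu).integral_comp (f := fun x : ℝ => x ^ 2)
    (by fun_prop : Measurable fun x : ℝ => x ^ 2).aestronglyMeasurable
  rw [oe_sq_val, NNReal.coe_sub hsu] at h
  exact h

private theorem oe_exp_int (hB : IsBrownianReal W P) {s u : ℝ≥0} (hsu : s ≤ u) (κ : ℝ) :
    Integrable (fun ω => Real.exp (κ * (W u ω - W s ω))) P := by
  have hl := oe_law hB hsu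
  have h1 : Integrable (fun x : ℝ => Real.exp (κ * x)) (P.map fun ω => W u ω - W s ω) := by
    rw [hl.map_eq]
    exact integrable_exp_mul_gaussianReal κ
  exact h1.comp_aemeasurable hl.aemeasurable

private theorem oe_exp_val (hB : IsBrownianReal W P) {s u : ℝ≥0} (hsu : s ≤ u) (κ : ℝ) :
    ∫ ω, Real.exp (κ * (W u ω - W s ω)) ∂P = Real.exp (((u : ℝ) - s) * κ ^ 2 / 2) := by
  have h := mgf_gaussianReal (oe_law hB hsu).map_eq κ
  rw [zero_mul, zero_add, NNReal.coe_sub hsu] at h
  exact h

private theorem oe_indep {s u : ℝ≥0}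
    (hI : Indep (𝓕 s) (MeasurableSpace.comap (fun ω => W u ω - W s ω) inferInstance) P)
    {Y : Ω → ℝ} (hY : Measurable[𝓕 s] Y) : IndepFun Y (fun ω => W u ω - W s ω) P := by
  rw [IndepFun_iff_Indep]
  exact indep_of_indep_of_le_left hI hY.comap_le

private theorem oe_meas_W (had : Adapted 𝓕 W) (u : ℝ≥0) : Measurable (W u) :=
  (had u).mono (𝓕.le u) le_rfl

end aux

theorem osc_bound {Ω : Type*} {mΩ : MeasurableSpace Ω} {P : Measure Ω} [IsProbabilityMeasure P]
    {𝓕 : Filtration ℝ≥0 mΩ} {W : ℝ≥0 → Ω → ℝ} (hB : IsBrownianReal W P) (had : Adapted 𝓕 W)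
    (hind : ∀ s t, s ≤ t →
      Indep (𝓕 s) (MeasurableSpace.comap (fun ω => W t ω - W s ω) inferInstance) P)
    (t h : ℝ≥0) (r : ℝ) (hr : 0 < r) (D : Set Ω) (hD : MeasurableSet[𝓕 t] D) :
    P (D ∩ {ω | ∃ u, t ≤ u ∧ u ≤ t + h ∧ r < |W u ω - W t ω|}) ≤
      ENNReal.ofReal (h / r ^ 2) * P D := by
  classical
  set M : ℝ≥0 → Ω → ℝ := fun u => D.indicator fun ω => (W (max u t) ω - W t ω) ^ 2 with hM
  have hDm : MeasurableSet D := 𝓕.le t D hD
  have hMint : ∀ u, t ≤ u → Integrable (M u) P := by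
    intro u hu
    have h1 := oe_xi_sq_int hB hu
    simp only [hM, max_eq_left hu]
    exact h1.indicator hDm
  have hcm := cont_max (P := P) (𝓕 := 𝓕) t h M ?_ ?_ hMint ?_ ?_ (r ^ 2) (by positivity)
  · have hE : ∫ ω, M (t + h) ω ∂P = P.real D * h := by
      have ht : t ≤ t + h := le_self_add
      have h1 : ∀ ω, M (t + h) ω = (D.indicator (fun _ => (1:ℝ)) ω) * (W (t + h) ω - W t ω) ^ 2 := by
        intro ω
        simp only [hM, max_eq_left ht, Set.indicator]
        split_ifs <;> simp
      have hY : Measurable[𝓕 t] (D.indicator fun _ => (1:ℝ)) :=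
        Measurable.indicator measurable_const hD
      have hin := (oe_indep (hind t (t + h) ht) hY).comp measurable_id
        (by fun_prop : Measurable fun x : ℝ => x ^ 2)
      have h2 := hin.integral_fun_mul_eq_mul_integral
        ((measurable_const.indicator hDm).aestronglyMeasurable)
        (((oe_meas_W had (t + h)).sub (oe_meas_W had t)).pow_const 2).aestronglyMeasurable
      calc ∫ ω, M (t + h) ω ∂P
          = ∫ ω, (D.indicator (fun _ => (1:ℝ)) ω) * (W (t + h) ω - W t ω) ^ 2 ∂P :=
            integral_congr_ae (Eventually.of_forall h1)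
        _ = (∫ ω, D.indicator (fun _ => (1:ℝ)) ω ∂P) * ∫ ω, (W (t + h) ω - W t ω) ^ 2 ∂P := h2
        _ = P.real D * h := by
            rw [oe_xi_sq hB ht, integral_indicator_const _ hDm]
            simp
    refine (measure_mono ?_).trans (hcm.trans (le_of_eq ?_))
    · rintro ω ⟨hω, u, hu1, hu2, hu3⟩
      refine ⟨u, hu1, hu2, ?_⟩
      simp only [hM, max_eq_left hu1, Set.indicator_of_mem hω]
      rw [← sq_abs (W u ω - W t ω)]
      exact pow_lt_pow_left₀ hu3 hr.le (by norm_num)
    · rw [hE, mul_div_assoc, mul_comm, ENNReal.ofReal_mul (by positivity), ofReal_measureReal]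
  · intro u ω
    simp only [hM]
    exact Set.indicator_nonneg (fun _ _ => sq_nonneg _) ω
  · intro u hu
    simp only [hM, max_eq_left hu]
    exact Measurable.indicator (((had u).sub ((had t).mono (𝓕.mono hu) le_rfl)).pow_const 2)
      (𝓕.mono hu D hD)
  · filter_upwards [hB.cont] with ω hω
    by_cases hωD : ω ∈ D
    · simp only [hM, Set.indicator_of_mem hωD]
      have h1 : Continuous fun u : ℝ≥0 => W (max u t) ω :=
        hω.comp (continuous_id.max continuous_const)
      exact (h1.sub continuous_const).pow 2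
    · simp only [hM, Set.indicator_of_notMem hωD]
      exact continuous_const
  · intro s u hts hsu A hA
    have htu := hts.trans hsu
    have hAm : MeasurableSet A := 𝓕.le s A hA
    set Y : Ω → ℝ := (A ∩ D).indicator fun ω => W s ω - W t ω with hYdef
    have hYm : Measurable[𝓕 s] Y :=
      Measurable.indicator ((had s).sub ((had t).mono (𝓕.mono hts) le_rfl))
        (hA.inter (𝓕.mono hts D hD))
    have hADm : MeasurableSet (A ∩ D) := hAm.inter hDm
    have hin := (oe_indep (hind s u hsu) hYm).integral_fun_mul_eq_mul_integral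
      ((hYm.mono (𝓕.le s) le_rfl).aestronglyMeasurable)
      ((oe_meas_W had u).sub (oe_meas_W had s)).aestronglyMeasurable
    rw [oe_xi_mean hB hsu, mul_zero] at hin
    have hYint : Integrable Y P := (oe_xi_int hB hts).indicator hADm
    have hYxi : Integrable (fun ω => Y ω * (W u ω - W s ω)) P :=
      (oe_indep (hind s u hsu) hYm).integrable_mul hYint (oe_xi_int hB hsu)
    have hxs : Integrable ((A ∩ D).indicator fun ω => (W u ω - W s ω) ^ 2) P :=
      (oe_xi_sq_int hB hsu).indicator hADm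
    have hid : ∀ ω, A.indicator (M u) ω = A.indicator (M s) ω + 2 * (Y ω * (W u ω - W s ω)) +
        (A ∩ D).indicator (fun ω => (W u ω - W s ω) ^ 2) ω := by
      intro ω
      by_cases h1 : ω ∈ A
      · by_cases h2 : ω ∈ D
        · have h3 : ω ∈ A ∩ D := ⟨h1, h2⟩
          simp only [hM, hYdef, max_eq_left htu, max_eq_left hts, Set.indicator_of_mem h1,
            Set.indicator_of_mem h2, Set.indicator_of_mem h3]
          ring
        · have h3 : ω ∉ A ∩ D := fun h => h2 h.2
          simp only [hM, hYdef, Set.indicator_of_mem h1,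
            Set.indicator_of_notMem h2, Set.indicator_of_notMem h3]
          ring
      · have h3 : ω ∉ A ∩ D := fun h => h1 h.1
        simp only [hYdef, Set.indicator_of_notMem h1, Set.indicator_of_notMem h3]
        ring
    rw [← integral_indicator hAm, ← integral_indicator hAm,
      integral_congr_ae (Eventually.of_forall hid)]
    have hMs : Integrable (A.indicator (M s)) P := (hMint s hts).indicator hAm
    have e1 : ∫ ω, (A.indicator (M s) ω + 2 * (Y ω * (W u ω - W s ω)) +
        (A ∩ D).indicator (fun ω => (W u ω - W s ω) ^ 2) ω) ∂P =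
        (∫ ω, (A.indicator (M s) ω + 2 * (Y ω * (W u ω - W s ω))) ∂P) +
        ∫ ω, (A ∩ D).indicator (fun ω => (W u ω - W s ω) ^ 2) ω ∂P :=
      integral_add (hMs.add (hYxi.const_mul 2)) hxs
    have e2 : ∫ ω, (A.indicator (M s) ω + 2 * (Y ω * (W u ω - W s ω))) ∂P =
        (∫ ω, A.indicator (M s) ω ∂P) + ∫ ω, 2 * (Y ω * (W u ω - W s ω)) ∂P :=
      integral_add hMs (hYxi.const_mul 2)
    rw [e1, e2, integral_const_mul, hin]
    have hnn : 0 ≤ ∫ ω, (A ∩ D).indicator (fun ω => (W u ω - W s ω) ^ 2) ω ∂P :=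
      integral_nonneg fun ω => Set.indicator_nonneg (fun _ _ => sq_nonneg _) ω
    linarith

theorem exp_max {Ω : Type*} {mΩ : MeasurableSpace Ω} {P : Measure Ω} [IsProbabilityMeasure P]
    {𝓕 : Filtration ℝ≥0 mΩ} {W : ℝ≥0 → Ω → ℝ} (hB : IsBrownianReal W P) (had : Adapted 𝓕 W)
    (hind : ∀ s t, s ≤ t →
      Indep (𝓕 s) (MeasurableSpace.comap (fun ω => W t ω - W s ω) inferInstance) P)
    (Z : Ω → ℝ) (hZ : Measurable[𝓕 0] Z) (θ : ℝ) (hθ : 0 < θ) (c : ℝ) (t h : ℝ≥0) :
    P {ω | ∃ u, t ≤ u ∧ u ≤ t + h ∧ Z ω + W u ω < c} ≤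
      ENNReal.ofReal (Real.exp (θ * c + θ ^ 2 * (t + h) / 2)) *
        ∫⁻ ω, ENNReal.ofReal (Real.exp (-θ * Z ω)) ∂P := by
  by_cases hfin : ∫⁻ ω, ENNReal.ofReal (Real.exp (-θ * Z ω)) ∂P = ∞
  · rw [hfin, ENNReal.mul_top (by simp [Real.exp_pos])]
    exact le_top
  have hZm : Measurable Z := hZ.mono (𝓕.le 0) le_rfl
  have hEm : Measurable fun ω => Real.exp (-θ * Z ω) :=
    Real.measurable_exp.comp (measurable_const.mul hZm)
  have hEm0 : Measurable[𝓕 0] fun ω => Real.exp (-θ * Z ω) :=
    Real.measurable_exp.comp (measurable_const.mul hZ)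
  have hEint : Integrable (fun ω => Real.exp (-θ * Z ω)) P := by
    refine ⟨hEm.aestronglyMeasurable, ?_⟩
    rw [hasFiniteIntegral_iff_ofReal (Eventually.of_forall fun ω => (Real.exp_pos _).le)]
    exact lt_top_iff_ne_top.2 hfin
  set M : ℝ≥0 → Ω → ℝ := fun u ω =>
    Real.exp (-θ * Z ω) * Real.exp (-θ * (W u ω - W 0 ω)) with hM
  have hMad : ∀ u, Measurable[𝓕 u] (M u) := by
    intro u
    exact (hEm0.mono (𝓕.mono zero_le) le_rfl).mul (Real.measurable_exp.comp
      (measurable_const.mul ((had u).sub ((had 0).mono (𝓕.mono zero_le) le_rfl))))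
  have hMint : ∀ u, Integrable (M u) P := by
    intro u
    have hin := (oe_indep (hind 0 u zero_le) hEm0).comp measurable_id
      (by fun_prop : Measurable fun x : ℝ => Real.exp (-θ * x))
    exact hin.integrable_mul hEint (oe_exp_int hB zero_le (-θ))
  have hcm := cont_max (P := P) (𝓕 := 𝓕) t h M (fun u ω => by positivity)
    (fun u _ => hMad u) (fun u _ => hMint u) ?_ ?_ (Real.exp (-θ * c)) (Real.exp_pos _)
  · have hE : ∫ ω, M (t + h) ω ∂P =
        (∫ ω, Real.exp (-θ * Z ω) ∂P) * Real.exp (θ ^ 2 * (t + h) / 2) := by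
      have hin := (oe_indep (hind 0 (t + h) zero_le) hEm0).comp measurable_id
        (by fun_prop : Measurable fun x : ℝ => Real.exp (-θ * x))
      have h2 := hin.integral_fun_mul_eq_mul_integral hEm.aestronglyMeasurable
        (oe_exp_int hB zero_le (-θ)).aestronglyMeasurable
      calc ∫ ω, M (t + h) ω ∂P = (∫ ω, Real.exp (-θ * Z ω) ∂P) *
            ∫ ω, Real.exp (-θ * (W (t + h) ω - W 0 ω)) ∂P := h2
        _ = _ := by
          rw [oe_exp_val hB zero_le (-θ)]
          congr 2
          push_cast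
          ring
    refine (measure_mono_ae ?_).trans (hcm.trans (le_of_eq ?_))
    · filter_upwards [hB.toIsPreBrownianReal.eval_zero_ae_eq_zero] with ω hω hu
      obtain ⟨u, hu1, hu2, hu3⟩ := hu
      refine ⟨u, hu1, hu2, ?_⟩
      simp only [hM]
      rw [← Real.exp_add, hω]
      apply Real.exp_lt_exp.2
      nlinarith
    · rw [hE, mul_div_assoc, ← Real.exp_sub, mul_comm, ENNReal.ofReal_mul (Real.exp_pos _).le,
        ofReal_integral_eq_lintegral_ofReal hEint
          (Eventually.of_forall fun ω => (Real.exp_pos _).le)]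
      congr 3
      ring
  · filter_upwards [hB.cont] with ω hω
    simp only [hM]
    exact continuous_const.mul (Real.continuous_exp.comp
      (continuous_const.mul (hω.sub continuous_const)))
  · intro s u _ hsu A hA
    have hAm : MeasurableSet A := 𝓕.le s A hA
    have hYm : Measurable[𝓕 s] (A.indicator (M s)) := (hMad s).indicator hA
    have hin := (oe_indep (hind s u hsu) hYm).comp measurable_id
      (by fun_prop : Measurable fun x : ℝ => Real.exp (-θ * x))
    have h2 := hin.integral_fun_mul_eq_mul_integral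
      (hYm.mono (𝓕.le s) le_rfl).aestronglyMeasurable
      (oe_exp_int hB hsu (-θ)).aestronglyMeasurable
    have hid : ∀ ω, A.indicator (M u) ω =
        A.indicator (M s) ω * Real.exp (-θ * (W u ω - W s ω)) := by
      intro ω
      by_cases h1 : ω ∈ A
      · simp only [Set.indicator_of_mem h1, hM]
        rw [← Real.exp_add, ← Real.exp_add, ← Real.exp_add]
        congr 1
        ring
      · simp only [Set.indicator_of_notMem h1, zero_mul]
    rw [← integral_indicator hAm, ← integral_indicator hAm]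
    have h3 : ∫ ω, A.indicator (M u) ω ∂P = (∫ ω, A.indicator (M s) ω ∂P) *
        Real.exp (((u : ℝ) - s) * (-θ) ^ 2 / 2) := by
      rw [← oe_exp_val hB hsu (-θ)]
      calc ∫ ω, A.indicator (M u) ω ∂P
          = ∫ ω, A.indicator (M s) ω * Real.exp (-θ * (W u ω - W s ω)) ∂P :=
            integral_congr_ae (Eventually.of_forall hid)
        _ = _ := h2
    rw [h3]
    have h4 : 0 ≤ ∫ ω, A.indicator (M s) ω ∂P :=
      integral_nonneg fun ω => Set.indicator_nonneg (fun ω _ => by positivity) ω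
    have h5 : 1 ≤ Real.exp (((u : ℝ) - s) * (-θ) ^ 2 / 2) := by
      apply Real.one_le_exp
      have : (0 : ℝ) ≤ (u : ℝ) - s := sub_nonneg.2 (NNReal.coe_le_coe.2 hsu)
      positivity
    nlinarith

end Pool.Agent.H66.CBP
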