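import Pool.Agent.H66.CBP.Rank

/-!
# Deterministic facts about one path of the system
-/

open MeasureTheory ProbabilityTheory Filter
open scoped NNReal Topology ENNReal

namespace Pool.Agent.H66.CBP

/-- One path of the system, in real time. -/
structure IsPath (g : ℕ → ℝ) (x w : ℕ → ℝ → ℝ) : Prop where
  cont : ∀ i, Continuous (x i)
  rankable : ∀ t, Rankable fun j => x j t
  sde : ∀ (i : ℕ) (t : ℝ), 0 ≤ t →
    x i t = x i 0 + (∫ s in (0 : ℝ)..t, g ((rankPerm fun j => x j s).symm i)) + w i t

variable {g : ℕ → ℝ} {x w : ℕ → ℝ → ℝ}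

theorem IsPath.measurable (hp : IsPath g x w) (i : ℕ) (f : ℕ → ℝ) :
    Measurable fun s => f ((rankPerm fun j => x j s).symm i) :=
  (measurable_of_countable f).comp
    (measurable_rank (fun j => (hp.cont j).measurable) hp.rankable i)

theorem IsPath.intervalIntegrable (hp : IsPath g x w) (i : ℕ) {f : ℕ → ℝ} {G : ℝ}
    (hf : ∀ k, |f k| ≤ G) (a b : ℝ) :
    IntervalIntegrable (fun s => f ((rankPerm fun j => x j s).symm i)) volume a b := by
  have : IntervalIntegrable (fun _ : ℝ => G) volume a b := intervalIntegrable_const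
  apply this.mono_fun (hp.measurable i f).aestronglyMeasurable
  filter_upwards with s
  rw [Real.norm_eq_abs, Real.norm_eq_abs]
  exact (hf _).trans (le_abs_self _)

theorem IsPath.incr (hp : IsPath g x w) {G : ℝ} (hg : ∀ k, |g k| ≤ G) (i : ℕ) {s t : ℝ}
    (hs : 0 ≤ s) (ht : 0 ≤ t) :
    x i t - x i s = (∫ r in s..t, g ((rankPerm fun j => x j r).symm i)) + (w i t - w i s) := by
  rw [hp.sde i t ht, hp.sde i s hs,
    ← intervalIntegral.integral_interval_sub_left (hp.intervalIntegrable i hg 0 t)
      (hp.intervalIntegrable i hg 0 s)]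
  ring

theorem IsPath.drift_bound (hp : IsPath g x w) {G : ℝ} (hg : ∀ k, |g k| ≤ G) (i : ℕ) {s t : ℝ}
    (hs : 0 ≤ s) (hst : s ≤ t) :
    |(x i t - x i 0 - w i t) - (x i s - x i 0 - w i s)| ≤ G * (t - s) := by
  have h1 := hp.incr hg i hs (hs.trans hst)
  have h2 : (x i t - x i 0 - w i t) - (x i s - x i 0 - w i s) =
      ∫ r in s..t, g ((rankPerm fun j => x j r).symm i) := by linarith
  rw [h2]
  have h3 := intervalIntegral.norm_integral_le_of_norm_le_const (a := s) (b := t) (C := G)
    (f := fun r => g ((rankPerm fun j => x j r).symm i)) (fun r _ => by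
      rw [Real.norm_eq_abs]; exact hg _)
  rwa [Real.norm_eq_abs, abs_of_nonneg (by linarith : 0 ≤ t - s)] at h3

/-- Pointwise bound for the sum of the drifts of finitely many particles. -/
theorem sum_drift_le (p : Equiv.Perm ℕ) {m : ℕ} {δ : ℝ} (hδ : 0 ≤ δ)
    (hm : ∀ k, m ≤ k → |g k| ≤ δ) (B : Finset ℕ) :
    ∑ i ∈ B, |g (p.symm i)| ≤ ∑ k ∈ Finset.range m, |g k| + B.card * δ := by
  classical
  have h1 : ∑ i ∈ B, |g (p.symm i)| = ∑ k ∈ B.map p.symm.toEmbedding, |g k| := by
    rw [Finset.sum_map]; rfl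
  rw [h1, ← Finset.sum_filter_add_sum_filter_not (B.map p.symm.toEmbedding) (fun k => k < m)]
  apply add_le_add
  · apply Finset.sum_le_sum_of_subset_of_nonneg
    · intro k hk
      rw [Finset.mem_filter] at hk
      exact Finset.mem_range.2 hk.2
    · intro k _ _; exact abs_nonneg _
  · calc ∑ k ∈ (B.map p.symm.toEmbedding).filter (fun k => ¬ k < m), |g k|
        ≤ ∑ _k ∈ (B.map p.symm.toEmbedding).filter (fun k => ¬ k < m), δ := by
          apply Finset.sum_le_sum
          intro k hk
          rw [Finset.mem_filter] at hk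
          exact hm k (not_lt.1 hk.2)
      _ = (((B.map p.symm.toEmbedding).filter (fun k => ¬ k < m)).card : ℝ) * δ := by
          rw [Finset.sum_const, nsmul_eq_mul]
      _ ≤ B.card * δ := by
          apply mul_le_mul_of_nonneg_right _ hδ
          have h2 := Finset.card_filter_le (B.map p.symm.toEmbedding) (fun k => ¬ k < m)
          rw [Finset.card_map] at h2
          exact_mod_cast h2

/-- Only boundedly many particles have a drift term of size at least `δ t`. -/
theorem exists_few (hg0 : Tendsto g atTop (𝓝 0)) {δ : ℝ} (hδ : 0 < δ) :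
    ∃ N : ℕ, ∀ x w : ℕ → ℝ → ℝ, IsPath g x w → ∀ t : ℝ, 0 < t → ∀ B : Finset ℕ,
      (∀ i ∈ B, δ * t ≤ |x i t - x i 0 - w i t|) → B.card ≤ N := by
  have h1 : ∀ᶠ k in atTop, |g k| ≤ δ / 2 := by
    have := hg0.abs
    rw [abs_zero] at this
    filter_upwards [this.eventually (gt_mem_nhds (by positivity : 0 < δ / 2))] with k hk
    exact hk.le
  obtain ⟨m, hm⟩ := eventually_atTop.1 h1
  obtain ⟨G, hG⟩ : ∃ G, ∀ k, |g k| ≤ G := by
    obtain ⟨G, hG⟩ := hg0.abs.bddAbove_range
    exact ⟨G, fun k => hG ⟨k, rfl⟩⟩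
  set C := ∑ k ∈ Finset.range m, |g k| with hC
  refine ⟨⌈2 * C / δ⌉₊, fun x w hp t ht B hB => ?_⟩
  have h2 : (B.card : ℝ) * (δ * t) ≤ (C + B.card * (δ / 2)) * t := by
    calc (B.card : ℝ) * (δ * t) = ∑ _i ∈ B, δ * t := by rw [Finset.sum_const, nsmul_eq_mul]
      _ ≤ ∑ i ∈ B, |x i t - x i 0 - w i t| := Finset.sum_le_sum hB
      _ ≤ ∑ i ∈ B, ∫ s in (0 : ℝ)..t, |g ((rankPerm fun j => x j s).symm i)| := by
          apply Finset.sum_le_sum
          intro i _
          have : x i t - x i 0 - w i t =
              ∫ s in (0 : ℝ)..t, g ((rankPerm fun j => x j s).symm i) := by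
            rw [hp.sde i t ht.le]; ring
          rw [this]
          exact intervalIntegral.abs_integral_le_integral_abs ht.le
      _ = ∫ s in (0 : ℝ)..t, ∑ i ∈ B, |g ((rankPerm fun j => x j s).symm i)| := by
          rw [intervalIntegral.integral_finsetSum]
          intro i _
          exact (hp.intervalIntegrable i hG 0 t).abs
      _ ≤ ∫ s in (0 : ℝ)..t, (C + B.card * (δ / 2)) := by
          apply intervalIntegral.integral_mono_on ht.le
          · have := IntervalIntegrable.sum (μ := volume) (a := 0) (b := t) B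
              (f := fun i s => |g ((rankPerm fun j => x j s).symm i)|)
              (fun i _ => (hp.intervalIntegrable i hG 0 t).abs)
            rwa [Finset.sum_fn] at this
          · exact intervalIntegrable_const
          · intro s _
            exact sum_drift_le _ (by positivity) hm B
      _ = (C + B.card * (δ / 2)) * t := by
          rw [intervalIntegral.integral_const, smul_eq_mul]; ring
  have h3 : (B.card : ℝ) * δ ≤ C + B.card * (δ / 2) := by
    have : (B.card : ℝ) * δ * t ≤ (C + B.card * (δ / 2)) * t := by linarith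
    exact le_of_mul_le_mul_right this ht
  have h4 : (B.card : ℝ) ≤ 2 * C / δ := by
    rw [le_div_iff₀ hδ]; linarith
  have h5 := h4.trans (Nat.le_ceil _)
  exact_mod_cast h5

end Pool.Agent.H66.CBP
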