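import Pool.Agent.H66.CBP.Rank
import Pool.Agent.H66.CBP.OscExp

/-!
# Borel-Cantelli on the geometric grid
-/

open MeasureTheory ProbabilityTheory Filter
open scoped NNReal Topology ENNReal

namespace Pool.Agent.H66.CBP

variable {Ω : Type*} {mΩ : MeasurableSpace Ω} {P : Measure Ω} [IsProbabilityMeasure P]
  {𝓕 : Filtration ℝ≥0 mΩ} {W : ℕ → ℝ≥0 → Ω → ℝ}

theorem IsBrownianFamily.indep_one (hB : IsBrownianFamily P 𝓕 W) (i : ℕ) (s t : ℝ≥0)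
    (hst : s ≤ t) :
    Indep (𝓕 s) (MeasurableSpace.comap (fun ω => W i t ω - W i s ω) inferInstance) P := by
  apply indep_of_indep_of_le_right (hB.indep_past s t hst)
  have : (fun ω => W i t ω - W i s ω) =
      (fun f : ℕ → ℝ => f i) ∘ (fun ω i => W i t ω - W i s ω) := rfl
  rw [this, ← MeasurableSpace.comap_comp]
  apply MeasurableSpace.comap_mono
  exact (measurable_pi_apply i).comap_le

/-- The grid of times. -/
noncomputable def grid (θ : ℝ) (k : ℕ) : ℝ≥0 := ((1 + θ) ^ k).toNNReal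

theorem coe_grid {θ : ℝ} (hθ : 0 < θ) (k : ℕ) : (grid θ k : ℝ) = (1 + θ) ^ k :=
  Real.coe_toNNReal _ (by positivity)

theorem coe_grid_add {θ : ℝ} (hθ : 0 < θ) (k : ℕ) :
    ((grid θ k + (θ * (1 + θ) ^ k).toNNReal : ℝ≥0) : ℝ) = (1 + θ) ^ (k + 1) := by
  rw [NNReal.coe_add, coe_grid hθ, Real.coe_toNNReal _ (by positivity)]
  ring

theorem summable_inv_grid {θ : ℝ} (hθ : 0 < θ) : Summable fun k : ℕ => ((1 + θ) ^ k)⁻¹ := by
  have : (fun k : ℕ => ((1 + θ) ^ k)⁻¹) = fun k : ℕ => ((1 + θ)⁻¹) ^ k := by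
    ext k; rw [inv_pow]
  rw [this]
  apply summable_geometric_of_lt_one (by positivity)
  exact inv_lt_one_of_one_lt₀ (by linarith)

theorem tsum_ofReal_ne_top {f : ℕ → ℝ} (hf : Summable f) :
    ∑' k, ENNReal.ofReal (f k) ≠ ∞ := hf.tsum_ofReal_ne_top

theorem ae_osc (hB : IsBrownianFamily P 𝓕 W) {θ ρ : ℝ} (hθ : 0 < θ) (hρ : 0 < ρ)
    (D : ℕ → ℕ → Set Ω) (hD : ∀ k i, MeasurableSet[𝓕 (grid θ k)] (D k i)) (N : ℕ)
    (hN : ∀ k, ∑' i, P (D k i) ≤ N) :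
    ∀ᵐ ω ∂P, ∀ᶠ k in atTop, ∀ i, ω ∈ D k i → ∀ u : ℝ, (1 + θ) ^ k ≤ u → u ≤ (1 + θ) ^ (k + 1) →
      |W i u.toNNReal ω - W i (grid θ k) ω| ≤ ρ * (1 + θ) ^ k := by
  set E : ℕ → Set Ω := fun k => ⋃ i, D k i ∩ {ω | ∃ u, grid θ k ≤ u ∧
    u ≤ grid θ k + (θ * (1 + θ) ^ k).toNNReal ∧
    ρ * (1 + θ) ^ k < |W i u ω - W i (grid θ k) ω|} with hE
  have hEb : ∀ k, P (E k) ≤ ENNReal.ofReal (θ / ρ ^ 2 * ((1 + θ) ^ k)⁻¹) * N := by
    intro k
    calc P (E k) ≤ ∑' i, P (D k i ∩ {ω | ∃ u, grid θ k ≤ u ∧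
          u ≤ grid θ k + (θ * (1 + θ) ^ k).toNNReal ∧
          ρ * (1 + θ) ^ k < |W i u ω - W i (grid θ k) ω|}) := measure_iUnion_le _
      _ ≤ ∑' i, ENNReal.ofReal (θ / ρ ^ 2 * ((1 + θ) ^ k)⁻¹) * P (D k i) := by
          apply ENNReal.tsum_le_tsum
          intro i
          have h1 := osc_bound (hB.brownian i) (hB.adapted i) (hB.indep_one i) (grid θ k)
            (θ * (1 + θ) ^ k).toNNReal (ρ * (1 + θ) ^ k) (by positivity) (D k i) (hD k i)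
          refine h1.trans (le_of_eq ?_)
          congr 2
          rw [Real.coe_toNNReal _ (by positivity)]
          have : (0 : ℝ) < (1 + θ) ^ k := by positivity
          field_simp
      _ = ENNReal.ofReal (θ / ρ ^ 2 * ((1 + θ) ^ k)⁻¹) * ∑' i, P (D k i) := by
          rw [ENNReal.tsum_mul_left]
      _ ≤ _ := by gcongr; exact hN k
  have hsum : ∑' k, P (E k) ≠ ∞ := by
    apply ne_top_of_le_ne_top _ (ENNReal.tsum_le_tsum hEb)
    rw [ENNReal.tsum_mul_right]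
    apply ENNReal.mul_ne_top
    · exact tsum_ofReal_ne_top ((summable_inv_grid hθ).mul_left _)
    · exact ENNReal.natCast_ne_top N
  filter_upwards [ae_eventually_notMem hsum] with ω hω
  filter_upwards [hω] with k hk i hi u hu1 hu2
  by_contra hcon
  push Not at hcon
  apply hk
  rw [hE, Set.mem_iUnion]
  refine ⟨i, hi, u.toNNReal, ?_, ?_, hcon⟩
  · exact Real.toNNReal_le_toNNReal hu1
  · rw [← NNReal.coe_le_coe, coe_grid_add hθ, Real.coe_toNNReal _ (le_trans (by positivity) hu1)]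
    exact hu2

theorem ae_free (hB : IsBrownianFamily P 𝓕 W) {X0 : ℕ → Ω → ℝ}
    (hX0 : ∀ i, Measurable[𝓕 0] (X0 i)) {ϑ v θ : ℝ} (hϑ : 0 < ϑ)
    (hsum : ∑' i, ∫⁻ ω, ENNReal.ofReal (Real.exp (-ϑ * X0 i ω)) ∂P < ∞) (hθ : 0 < θ)
    (hv : ϑ * (1 + θ) / 2 < v) :
    ∀ᵐ ω ∂P, ∀ᶠ k : ℕ in atTop, ∀ (i : ℕ) (u : ℝ), (1 + θ) ^ k ≤ u → u ≤ (1 + θ) ^ (k + 1) →
      -(v * (1 + θ) ^ k) ≤ X0 i ω + W i u.toNNReal ω := by
  set κ := ϑ * (v - ϑ * (1 + θ) / 2) with hκ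
  have hκ0 : 0 < κ := mul_pos hϑ (by linarith)
  set S := ∑' i, ∫⁻ ω, ENNReal.ofReal (Real.exp (-ϑ * X0 i ω)) ∂P with hS
  set E : ℕ → Set Ω := fun k => ⋃ i, {ω | ∃ u, grid θ k ≤ u ∧
    u ≤ grid θ k + (θ * (1 + θ) ^ k).toNNReal ∧ X0 i ω + W i u ω < -(v * (1 + θ) ^ k)} with hE
  have hEb : ∀ k, P (E k) ≤ ENNReal.ofReal (κ⁻¹ * ((1 + θ) ^ k)⁻¹) * S := by
    intro k
    have hpos : (0 : ℝ) < (1 + θ) ^ k := by positivity
    calc P (E k) ≤ ∑' i, P {ω | ∃ u, grid θ k ≤ u ∧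
          u ≤ grid θ k + (θ * (1 + θ) ^ k).toNNReal ∧
          X0 i ω + W i u ω < -(v * (1 + θ) ^ k)} := measure_iUnion_le _
      _ ≤ ∑' i, ENNReal.ofReal (κ⁻¹ * ((1 + θ) ^ k)⁻¹) *
            ∫⁻ ω, ENNReal.ofReal (Real.exp (-ϑ * X0 i ω)) ∂P := by
          apply ENNReal.tsum_le_tsum
          intro i
          have h1 := exp_max (hB.brownian i) (hB.adapted i) (hB.indep_one i) (X0 i) (hX0 i) ϑ hϑ
            (-(v * (1 + θ) ^ k)) (grid θ k) (θ * (1 + θ) ^ k).toNNReal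
          refine h1.trans ?_
          gcongr
          rw [← NNReal.coe_add, coe_grid_add hθ]
          have h2 : ϑ * -(v * (1 + θ) ^ k) + ϑ ^ 2 * (1 + θ) ^ (k + 1) / 2 =
              -(κ * (1 + θ) ^ k) := by rw [hκ]; ring
          rw [h2, ← mul_inv, Real.exp_neg]
          apply inv_anti₀ (by positivity)
          linarith [Real.add_one_le_exp (κ * (1 + θ) ^ k)]
      _ = ENNReal.ofReal (κ⁻¹ * ((1 + θ) ^ k)⁻¹) * S := by rw [ENNReal.tsum_mul_left]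
  have hsum' : ∑' k, P (E k) ≠ ∞ := by
    apply ne_top_of_le_ne_top _ (ENNReal.tsum_le_tsum hEb)
    rw [ENNReal.tsum_mul_right]
    apply ENNReal.mul_ne_top
    · exact tsum_ofReal_ne_top ((summable_inv_grid hθ).mul_left _)
    · exact hsum.ne
  filter_upwards [ae_eventually_notMem hsum'] with ω hω
  filter_upwards [hω] with k hk i u hu1 hu2
  by_contra hcon
  push Not at hcon
  apply hk
  rw [hE, Set.mem_iUnion]
  refine ⟨i, u.toNNReal, ?_, ?_, hcon⟩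
  · exact Real.toNNReal_le_toNNReal hu1
  · rw [← NNReal.coe_le_coe, coe_grid_add hθ, Real.coe_toNNReal _ (le_trans (by positivity) hu1)]
    exact hu2

end Pool.Agent.H66.CBP
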