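import Pool.Agent.H66.CBP.Defs

/-!
# Ranking lemmas
-/

open MeasureTheory ProbabilityTheory Filter
open scoped NNReal Topology ENNReal

namespace Pool.Agent.H66.CBP

/-- The strict order of the indices by value, ties broken by the index. -/
def Before (x : ℕ → ℝ) (j i : ℕ) : Prop := x j < x i ∨ (x j = x i ∧ j < i)

theorem Before.trans {x : ℕ → ℝ} {a b c : ℕ} (h1 : Before x a b) (h2 : Before x b c) :
    Before x a c := by
  unfold Before at *
  rcases h1 with h1 | ⟨h1, h1'⟩ <;> rcases h2 with h2 | ⟨h2, h2'⟩
  · exact Or.inl (h1.trans h2)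
  · exact Or.inl (by linarith)
  · exact Or.inl (by linarith)
  · exact Or.inr ⟨h1.trans h2, h1'.trans h2'⟩

theorem Before.irrefl {x : ℕ → ℝ} {a : ℕ} : ¬ Before x a a := by
  unfold Before
  rintro (h | ⟨_, h⟩)
  · exact lt_irrefl _ h
  · exact lt_irrefl _ h

theorem before_or {x : ℕ → ℝ} {a b : ℕ} (h : a ≠ b) : Before x a b ∨ Before x b a := by
  unfold Before
  rcases lt_trichotomy (x a) (x b) with h1 | h1 | h1
  · exact Or.inl (Or.inl h1)
  · rcases lt_or_gt_of_ne h with h2 | h2
    · exact Or.inl (Or.inr ⟨h1, h2⟩)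
    · exact Or.inr (Or.inr ⟨h1.symm, h2⟩)
  · exact Or.inr (Or.inl h1)

theorem IsRanking.before_iff {x : ℕ → ℝ} {p : Equiv.Perm ℕ} (h : IsRanking x p) (k l : ℕ) :
    Before x (p k) (p l) ↔ k < l := by
  constructor
  · intro hb
    by_contra hlt
    rcases eq_or_lt_of_le (not_lt.1 hlt) with h1 | h1
    · subst h1; exact Before.irrefl hb
    · exact Before.irrefl (hb.trans (h l k h1))
  · intro hkl; exact h k l hkl

theorem IsRanking.before_iff' {x : ℕ → ℝ} {p : Equiv.Perm ℕ} (h : IsRanking x p) (i j : ℕ) :
    Before x i j ↔ p.symm i < p.symm j := by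
  have := h.before_iff (p.symm i) (p.symm j)
  simpa using this

theorem IsRanking.mono {x : ℕ → ℝ} {p : Equiv.Perm ℕ} (h : IsRanking x p) {k l : ℕ}
    (hkl : k ≤ l) : x (p k) ≤ x (p l) := by
  rcases eq_or_lt_of_le hkl with h1 | h1
  · subst h1; exact le_rfl
  · rcases h k l h1 with h2 | h2
    · exact h2.le
    · exact h2.1.le

theorem exists_isRanking {x : ℕ → ℝ} (h : Rankable x) : ∃ p, IsRanking x p := by
  obtain ⟨p, hp⟩ := h
  have hfin : ∀ i, {j | Before x j i}.Finite := by
    intro i
    apply Set.Finite.subset (((Set.finite_Iio (p.symm i)).image p).union (Set.finite_Iio i))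
    rintro j (hj | ⟨_, hj⟩)
    · left
      refine ⟨p.symm j, ?_, by simp⟩
      by_contra hlt
      have hle : p.symm i ≤ p.symm j := not_lt.1 hlt
      rcases eq_or_lt_of_le hle with h1 | h1
      · have : i = j := p.symm.injective h1
        subst this; exact lt_irrefl _ hj
      · have := hp _ _ h1
        simp only [Equiv.apply_symm_apply] at this
        linarith
    · right; exact hj
  set rk : ℕ → ℕ := fun i => {j | Before x j i}.ncard with hrk
  have hlt : ∀ i j, Before x i j → rk i < rk j := by
    intro i j hij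
    apply Set.ncard_lt_ncard _ (hfin j)
    refine ⟨fun l hl => Before.trans hl hij, fun hsub => ?_⟩
    exact Before.irrefl (hsub (show i ∈ {l | Before x l j} from hij))
  have hinj : Function.Injective rk := by
    intro i j hij
    by_contra hne
    rcases before_or (x := x) hne with h1 | h1
    · exact absurd (hlt _ _ h1) (by rw [hij]; exact lt_irrefl _)
    · exact absurd (hlt _ _ h1) (by rw [hij]; exact lt_irrefl _)
  have hdown : ∀ n i, rk i = n → ∀ m, m ≤ n → ∃ j, rk j = m := by
    intro n
    induction n with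
    | zero =>
      intro i hi m hm
      exact ⟨i, by omega⟩
    | succ n ih =>
      intro i hi m hm
      rcases eq_or_lt_of_le hm with h1 | h1
      · exact ⟨i, by omega⟩
      have hne : {j | Before x j i}.Nonempty := by
        rw [Set.nonempty_iff_ne_empty]
        intro h0
        have : rk i = 0 := by simp only [hrk, h0, Set.ncard_empty]
        omega
      obtain ⟨j, hj, hmax⟩ := Set.exists_max_image _ rk (hfin i) hne
      have hS : {l | Before x l i} = insert j {l | Before x l j} := by
        ext l
        constructor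
        · intro hl
          by_cases hlj : l = j
          · left; exact hlj
          right
          rcases before_or (x := x) hlj with h2 | h2
          · exact h2
          · exact absurd (hlt _ _ h2) (not_lt.2 (hmax l hl))
        · rintro (hl | hl)
          · rw [hl]; exact hj
          · exact Before.trans hl hj
      have hcard : rk i = rk j + 1 := by
        simp only [hrk]
        rw [hS, Set.ncard_insert_of_notMem (s := {l | Before x l j})
          (fun h : j ∈ {l | Before x l j} => Before.irrefl h) (hfin j)]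
      exact ih j (by omega) m (by omega)
  have hsurj : Function.Surjective rk := by
    intro m
    obtain ⟨_, ⟨i, rfl⟩, hi⟩ := (Set.infinite_range_of_injective hinj).exists_gt m
    exact hdown _ i rfl m hi.le
  refine ⟨(Equiv.ofBijective rk ⟨hinj, hsurj⟩).symm, ?_⟩
  set q := Equiv.ofBijective rk ⟨hinj, hsurj⟩ with hq
  intro k l hkl
  have h1 : rk (q.symm k) = k := q.apply_symm_apply k
  have h2 : rk (q.symm l) = l := q.apply_symm_apply l
  have hne : q.symm k ≠ q.symm l := by
    intro h; have := q.symm.injective h; omega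
  rcases before_or (x := x) hne with h3 | h3
  · exact h3
  · have := hlt _ _ h3
    omega

theorem rankPerm_spec {x : ℕ → ℝ} (h : Rankable x) : IsRanking x (rankPerm x) := by
  have := exists_isRanking h
  rw [rankPerm, dif_pos this]
  exact this.choose_spec

open Classical in
/-- The number of indices before `i`. -/
noncomputable def cnt (x : ℕ → ℝ) (i : ℕ) : ℝ≥0∞ := ∑' j, if Before x j i then 1 else 0

theorem IsRanking.cnt_eq {x : ℕ → ℝ} {p : Equiv.Perm ℕ} (h : IsRanking x p) (i : ℕ) :
    cnt x i = (p.symm i : ℕ) := by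
  classical
  unfold cnt
  rw [← Equiv.tsum_eq p]
  have : ∀ k, (if Before x (p k) i then (1 : ℝ≥0∞) else 0) = if k < p.symm i then 1 else 0 := by
    intro k
    have := h.before_iff k (p.symm i)
    simp only [Equiv.apply_symm_apply] at this
    simp only [this]
  simp only [this]
  rw [tsum_eq_sum (s := Finset.range (p.symm i))]
  · rw [Finset.sum_congr rfl (g := fun _ => (1 : ℝ≥0∞))]
    · simp
    · intro k hk; rw [if_pos (Finset.mem_range.1 hk)]
  · intro k hk
    rw [if_neg]
    simpa using hk

theorem measurable_cnt {T : Type*} {mT : MeasurableSpace T} {x : ℕ → T → ℝ}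
    (hx : ∀ j, Measurable (x j)) (i : ℕ) : Measurable fun t => cnt (fun j => x j t) i := by
  classical
  unfold cnt
  apply Measurable.tsum
  intro j
  apply Measurable.ite _ measurable_const measurable_const
  unfold Before
  apply MeasurableSet.union
  · exact measurableSet_lt (hx j) (hx i)
  · apply MeasurableSet.inter
    · exact measurableSet_eq_fun (hx j) (hx i)
    · exact MeasurableSet.const _

theorem measurable_rank {T : Type*} {mT : MeasurableSpace T} {x : ℕ → T → ℝ}
    (hx : ∀ j, Measurable (x j)) (hr : ∀ t, Rankable fun j => x j t) (i : ℕ) :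
    Measurable fun t => (rankPerm fun j => x j t).symm i := by
  apply measurable_to_countable'
  intro k
  have : (fun t => (rankPerm fun j => x j t).symm i) ⁻¹' {k} =
      (fun t => cnt (fun j => x j t) i) ⁻¹' {(k : ℝ≥0∞)} := by
    ext t
    simp only [Set.mem_preimage, Set.mem_singleton_iff]
    rw [(rankPerm_spec (hr t)).cnt_eq i]
    exact Nat.cast_inj.symm
  rw [this]
  exact measurable_cnt hx i (measurableSet_singleton _)

/-- Abel summation. -/
theorem abel_sum {c : ℕ → ℝ} {γ : ℝ} (hc : ∀ n : ℕ, γ * n ≤ ∑ k ∈ Finset.range n, c k)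
    {ψ : ℕ → ℝ} (hψ : Antitone ψ) (h0 : ∀ k, 0 ≤ ψ k) (M : ℕ) :
    γ * ∑ k ∈ Finset.range M, ψ k ≤ ∑ k ∈ Finset.range M, ψ k * c k := by
  have key : ∀ M : ℕ, ψ M * (∑ k ∈ Finset.range M, c k - γ * M) ≤
      ∑ k ∈ Finset.range M, ψ k * c k - γ * ∑ k ∈ Finset.range M, ψ k := by
    intro M
    induction M with
    | zero => simp
    | succ M ih =>
      rw [Finset.sum_range_succ, Finset.sum_range_succ (fun k => ψ k * c k),
        Finset.sum_range_succ ψ]
      have h1 : 0 ≤ ∑ k ∈ Finset.range (M + 1), c k - γ * ((M + 1 : ℕ) : ℝ) := by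
        linarith [hc (M + 1)]
      have h2 : ψ (M + 1) ≤ ψ M := hψ (Nat.le_succ M)
      have h3 := mul_le_mul_of_nonneg_right h2 h1
      rw [Finset.sum_range_succ] at h3
      push_cast at *
      nlinarith [h3, ih]
  have h1 := key M
  have h2 : 0 ≤ ψ M * (∑ k ∈ Finset.range M, c k - γ * M) :=
    mul_nonneg (h0 M) (by linarith [hc M])
  linarith

theorem rank_abel {y : ℕ → ℝ} {p : Equiv.Perm ℕ} (hp : IsRanking y p) (L : ℝ) (B : Finset ℕ)
    (hB : ∀ i, i ∉ B → L ≤ y i) {c : ℕ → ℝ} {γ : ℝ}
    (hc : ∀ n : ℕ, γ * n ≤ ∑ k ∈ Finset.range n, c k) :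
    γ * ∑ i ∈ B, max 0 (L - y i) ≤ ∑ i ∈ B, max 0 (L - y i) * c (p.symm i) := by
  set ψ : ℕ → ℝ := fun k => max 0 (L - y (p k)) with hψd
  have hanti : Antitone ψ := by
    intro k l hkl
    simp only [hψd]
    have := hp.mono hkl
    exact max_le_max le_rfl (by linarith)
  have h0 : ∀ k, 0 ≤ ψ k := fun k => le_max_left _ _
  set S : Finset ℕ := B.map p.symm.toEmbedding with hS
  set M : ℕ := S.sup id + 1 with hM
  have hsub : S ⊆ Finset.range M := by
    intro k hk
    rw [Finset.mem_range, hM]
    exact Nat.lt_succ_of_le (Finset.le_sup (f := id) hk)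
  have hz : ∀ k, k ∉ S → ψ k = 0 := by
    intro k hk
    have : p k ∉ B := by
      intro h
      apply hk
      rw [hS, Finset.mem_map]
      exact ⟨p k, h, by simp⟩
    simp only [hψd]
    exact max_eq_left (by linarith [hB _ this])
  have e1 : ∑ i ∈ B, max 0 (L - y i) = ∑ k ∈ Finset.range M, ψ k := by
    rw [← Finset.sum_subset hsub (fun k _ hk => hz k hk), hS, Finset.sum_map]
    apply Finset.sum_congr rfl
    intro i _
    simp [hψd]
  have e2 : ∑ i ∈ B, max 0 (L - y i) * c (p.symm i) = ∑ k ∈ Finset.range M, ψ k * c k := by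
    rw [← Finset.sum_subset hsub (fun k _ hk => by rw [hz k hk, zero_mul]), hS, Finset.sum_map]
    apply Finset.sum_congr rfl
    intro i _
    simp [hψd]
  rw [e1, e2]
  exact abel_sum hc hanti h0 M

end Pool.Agent.H66.CBP
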