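import Pool.Agent.H66.CBP.Lower

/-!
# Deterministic upper bound
-/

open MeasureTheory ProbabilityTheory Filter
open scoped NNReal Topology ENNReal

namespace Pool.Agent.H66.CBP

variable {g : ℕ → ℝ} {x w : ℕ → ℝ → ℝ}

theorem exists_high_rank (p : Equiv.Perm ℕ) {K : ℕ} {T : Finset ℕ} (hT : K + 1 ≤ T.card) :
    ∃ i ∈ T, K ≤ p.symm i := by
  by_contra hcon
  push Not at hcon
  have h1 : (T.map p.symm.toEmbedding) ⊆ Finset.range K := by
    intro k hk
    rw [Finset.mem_map] at hk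
    obtain ⟨i, hi, rfl⟩ := hk
    exact Finset.mem_range.2 (hcon i hi)
  have h2 := Finset.card_le_card h1
  rw [Finset.card_map, Finset.card_range] at h2
  omega

theorem rank_le_of_card {y : ℕ → ℝ} {p : Equiv.Perm ℕ} (hp : IsRanking y p) {K m : ℕ}
    (hm : m ≤ K) {T : Finset ℕ} (hT : K + 1 ≤ T.card) {b : ℝ} (hb : ∀ i ∈ T, y i ≤ b) :
    y (p m) ≤ b := by
  obtain ⟨i, hi, hKi⟩ := exists_high_rank p hT
  have h1 := hp.mono (hm.trans hKi)
  rw [Equiv.apply_symm_apply] at h1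
  exact h1.trans (hb i hi)

theorem upper_det (hg0 : Tendsto g atTop (𝓝 0)) {a ε : ℝ} (ha : 0 < a) (hε : 0 < ε) (K : ℕ) :
    ∃ θ₀ > 0, ∃ N : ℕ, ∀ θ, 0 < θ → θ ≤ θ₀ → ∀ x w : ℕ → ℝ → ℝ, IsPath g x w →
      (∀ᶠ k : ℕ in atTop, ∃ S : Finset ℕ, N ≤ S.card ∧
        ∀ i ∈ S, x i 0 + w i ((1 + θ) ^ k) ≤ -((a / 2 - ε) * (1 + θ) ^ k)) →
      (∀ᶠ k : ℕ in atTop, ∀ i, (rankPerm fun j => x j ((1 + θ) ^ k)).symm i ≤ K →
        ∀ u, (1 + θ) ^ k ≤ u → u ≤ (1 + θ) ^ (k + 1) →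
          |w i u - w i ((1 + θ) ^ k)| ≤ ε / 2 * (1 + θ) ^ k) →
      ∀ᶠ u : ℝ in atTop, x (rankPerm (fun j => x j u) K) u ≤ -((a / 2 - 3 * ε) * u) := by
  obtain ⟨G, hG⟩ : ∃ G, ∀ k, |g k| ≤ G := by
    obtain ⟨G, hG⟩ := hg0.abs.bddAbove_range
    exact ⟨G, fun k => hG ⟨k, rfl⟩⟩
  have hG0 : 0 ≤ G := (abs_nonneg _).trans (hG 0)
  obtain ⟨N₀, hN₀⟩ := exists_few hg0 (δ := ε / 2) (by positivity)
  refine ⟨ε / (a / 2 + G + 1), by positivity, N₀ + K + 1, ?_⟩
  intro θ hθ hθ₀ x w hp hmany hosc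
  have hθ2 : θ * (a / 2 + G) ≤ ε := by
    rw [le_div_iff₀ (by positivity)] at hθ₀
    nlinarith
  obtain ⟨k₀, hk₀⟩ := eventually_atTop.1 (hmany.and hosc)
  have htpos : ∀ k : ℕ, 0 < (1 + θ) ^ k := fun k => by positivity
  have hstep : ∀ k : ℕ, (1 + θ) ^ (k + 1) = (1 + θ) ^ k + θ * (1 + θ) ^ k := fun k => by ring
  filter_upwards [eventually_gt_atTop (max 1 ((1 + θ) ^ (k₀ + 1)))] with u hu
  have hu1 : 1 ≤ u := (le_max_left _ _).trans hu.le
  have hu2 : (1 + θ) ^ (k₀ + 1) < u := (le_max_right _ _).trans_lt hu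
  obtain ⟨k, hk1, hk2⟩ := grid_locate hθ hu1
  have hk : k₀ ≤ k := grid_large hθ k₀ hu2 hk2
  have hu0 : 0 < u := by linarith
  obtain ⟨⟨S, hS1, hS2⟩, ho⟩ := hk₀ k hk
  set t := (1 + θ) ^ k with ht
  have ht0 : 0 < t := htpos k
  -- low particles at time `t`
  classical
  set S' := S \ S.filter (fun i => ε / 2 * t ≤ |x i t - x i 0 - w i t|) with hS'
  have hcard : K + 1 ≤ S'.card := by
    have h1 : S.card - (S.filter (fun i => ε / 2 * t ≤ |x i t - x i 0 - w i t|)).card ≤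
        S'.card := by
      rw [hS']; exact Finset.le_card_sdiff _ _
    have h2 : (S.filter (fun i => ε / 2 * t ≤ |x i t - x i 0 - w i t|)).card ≤ N₀ := by
      apply hN₀ x w hp t ht0
      intro i hi
      rw [Finset.mem_filter] at hi
      exact hi.2
    omega
  have hlow : ∀ i ∈ S', x i t ≤ -((a / 2 - 3 / 2 * ε) * t) := by
    intro i hi
    rw [hS', Finset.mem_sdiff, Finset.mem_filter] at hi
    have h1 := hS2 i hi.1
    have h2 : |x i t - x i 0 - w i t| < ε / 2 * t := by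
      by_contra hcon
      exact hi.2 ⟨hi.1, not_lt.1 hcon⟩
    have h3 := (abs_lt.1 h2).2
    nlinarith
  have hpt := rankPerm_spec (hp.rankable t)
  set p := rankPerm fun j => x j t with hpd
  have hpm : ∀ m ≤ K, x (p m) t ≤ -((a / 2 - 3 / 2 * ε) * t) := fun m hm =>
    rank_le_of_card (y := fun j => x j t) hpt hm hcard hlow
  set T := (Finset.range (K + 1)).map p.toEmbedding with hT
  have hTcard : K + 1 ≤ T.card := by rw [hT, Finset.card_map, Finset.card_range]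
  have hTlow : ∀ i ∈ T, x i u ≤ -((a / 2 - 3 * ε) * u) := by
    intro i hi
    rw [hT, Finset.mem_map] at hi
    obtain ⟨m, hm, rfl⟩ := hi
    rw [Finset.mem_range] at hm
    have hm' : m ≤ K := by omega
    simp only [Equiv.coe_toEmbedding]
    have h1 := hpm m hm'
    have h2 := ho (p m) (by rw [Equiv.symm_apply_apply]; exact hm') u hk1 hk2
    have h3 := hp.drift_bound hG (p m) ht0.le hk1
    have h4 : u - t ≤ θ * t := by rw [hstep k] at hk2; linarith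
    have h5 : G * (u - t) ≤ G * (θ * t) := mul_le_mul_of_nonneg_left h4 hG0
    have h6 := (abs_le.1 h2).2
    have h7 := (abs_le.1 h3).2
    have h8 : x (p m) u ≤ -((a / 2 - 3 / 2 * ε) * t) + G * (θ * t) + ε / 2 * t := by linarith
    refine h8.trans ?_
    have h9 : (a / 2 - 3 * ε) * u ≤ (a / 2 - 3 * ε) * t + a / 2 * (θ * t) := by
      have e : (a / 2 - 3 * ε) * u = (a / 2 - 3 * ε) * t + (a / 2 - 3 * ε) * (u - t) := by ring
      rw [e]
      have h10 : (a / 2 - 3 * ε) * (u - t) ≤ a / 2 * (u - t) :=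
        mul_le_mul_of_nonneg_right (by linarith) (by linarith)
      have h11 : a / 2 * (u - t) ≤ a / 2 * (θ * t) := mul_le_mul_of_nonneg_left h4 (by linarith)
      linarith
    have h12 : θ * (a / 2 + G) * t ≤ ε * t := mul_le_mul_of_nonneg_right hθ2 ht0.le
    nlinarith
  exact rank_le_of_card (y := fun j => x j u) (rankPerm_spec (hp.rankable u)) le_rfl hTcard hTlow

end Pool.Agent.H66.CBP
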