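import Pool.Agent.H66.CBP.Path

/-!
# The Lyapunov inequality on one window
-/

open MeasureTheory ProbabilityTheory Filter
open scoped NNReal Topology ENNReal

namespace Pool.Agent.H66.CBP

variable {g : ℕ → ℝ} {x w : ℕ → ℝ → ℝ}

/-- The depth of particle `i` below the line `-β u` at time `u`. -/
noncomputable def psi (x : ℕ → ℝ → ℝ) (β : ℝ) (i : ℕ) (u : ℝ) : ℝ := max 0 (-(β * u) - x i u)

theorem psi_nonneg (β : ℝ) (i : ℕ) (u : ℝ) : 0 ≤ psi x β i u := le_max_left _ _

theorem sq_max_le (a b : ℝ) : (max 0 b) ^ 2 ≤ (max 0 a) ^ 2 + 2 * max 0 a * (b - a) + (b - a) ^ 2 := by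
  rcases le_total 0 a with ha | ha <;> rcases le_total 0 b with hb | hb
  · rw [max_eq_right ha, max_eq_right hb]; nlinarith
  · rw [max_eq_right ha, max_eq_left hb]; nlinarith [sq_nonneg b]
  · rw [max_eq_left ha, max_eq_right hb]; nlinarith
  · rw [max_eq_left ha, max_eq_left hb]; nlinarith [sq_nonneg (b - a)]

theorem abs_max_sub_le (a b : ℝ) : |max 0 a - max 0 b| ≤ |a - b| := by
  have := abs_max_sub_max_le_max 0 a 0 b
  simpa using this

theorem sum_sq_le_sq_sum' (B : Finset ℕ) (f : ℕ → ℝ) (hf : ∀ i, 0 ≤ f i) :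
    ∑ i ∈ B, f i ^ 2 ≤ (∑ i ∈ B, f i) ^ 2 := by
  classical
  induction B using Finset.induction_on with
  | empty => simp
  | insert a s ha ih =>
    rw [Finset.sum_insert ha, Finset.sum_insert ha]
    have h1 : 0 ≤ ∑ i ∈ s, f i := Finset.sum_nonneg fun i _ => hf i
    nlinarith [mul_nonneg (hf a) h1]

/-- Movement of a candidate particle relative to the line. -/
theorem move_bound (hp : IsPath g x w) {G β G' γ r t h : ℝ} (hG : ∀ k, |g k| ≤ G)
    (hG' : G + |β| ≤ G') (hγ : γ ≤ G') (ht : 0 ≤ t) (hr : r ≤ γ * h / 2) (hh : 0 ≤ h) {i : ℕ}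
    (hosc : ∀ u, t ≤ u → u ≤ t + h → |w i u - w i t| ≤ r) {u : ℝ} (hu : t ≤ u)
    (hu' : u ≤ t + h) :
    |(-(β * u) - x i u) - (-(β * t) - x i t)| ≤ 2 * G' * h := by
  have h1 := hp.incr hG i ht (ht.trans hu)
  have h2 := intervalIntegral.norm_integral_le_of_norm_le_const (a := t) (b := u) (C := G)
    (f := fun r => g ((rankPerm fun j => x j r).symm i)) (fun r _ => by
      rw [Real.norm_eq_abs]; exact hG _)
  rw [Real.norm_eq_abs, abs_of_nonneg (by linarith : 0 ≤ u - t)] at h2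
  have h3 := hosc u hu hu'
  set I := ∫ r in t..u, g ((rankPerm fun j => x j r).symm i) with hI
  have h4 : (-(β * u) - x i u) - (-(β * t) - x i t) = -(β * (u - t)) - I - (w i u - w i t) := by
    linarith
  rw [h4]
  have h5 : |β * (u - t)| ≤ |β| * (u - t) := by
    rw [abs_mul, abs_of_nonneg (by linarith : 0 ≤ u - t)]
  have hG0 : 0 ≤ G := (abs_nonneg _).trans (hG 0)
  have h6 : G * (u - t) + |β| * (u - t) ≤ G' * h := by
    calc G * (u - t) + |β| * (u - t) = (G + |β|) * (u - t) := by ring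
      _ ≤ G' * h := by
          apply mul_le_mul hG' (by linarith) (by linarith) (by linarith [abs_nonneg β])
  have hG'0 : 0 ≤ G' := by linarith [abs_nonneg β]
  have h7 : γ * h / 2 ≤ G' * h := by nlinarith
  rw [abs_le] at *
  constructor <;> nlinarith [h5.1, h5.2, h2.1, h2.2, h3.1, h3.2]

theorem window_ineq (hp : IsPath g x w) {G β G' γ r t h : ℝ} {N : ℕ} (hG : ∀ k, |g k| ≤ G)
    (hG' : G + |β| ≤ G') (hγ0 : 0 ≤ γ) (hγ : γ ≤ G') (ht : 0 ≤ t)
    (hr : r ≤ γ * h / 2) (hh : 0 ≤ h)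
    (hc : ∀ n : ℕ, γ * n ≤ ∑ k ∈ Finset.range n, (g k + β)) (B : Finset ℕ) (hB : B.card ≤ N)
    (hlow : ∀ u, t ≤ u → u ≤ t + h → ∀ i, i ∉ B → -(β * u) ≤ x i u)
    (hosc : ∀ i ∈ B, ∀ u, t ≤ u → u ≤ t + h → |w i u - w i t| ≤ r) :
    ∑ i ∈ B, psi x β i (t + h) ^ 2 ≤ ∑ i ∈ B, psi x β i t ^ 2
      - γ * h * Real.sqrt (∑ i ∈ B, psi x β i t ^ 2) + 12 * N * G' ^ 2 * h ^ 2 := by
  have hG0 : 0 ≤ G := (abs_nonneg _).trans (hG 0)
  have hG'0 : 0 ≤ G' := by linarith [abs_nonneg β]
  have hBN : (B.card : ℝ) ≤ N := by exact_mod_cast hB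
  have hcbound : ∀ k, |g k + β| ≤ G' := fun k => (abs_add_le _ _).trans (by linarith [hG k])
  set Ψ : ℕ → ℝ := fun i => psi x β i t with hΨ
  have hΨ0 : ∀ i, 0 ≤ Ψ i := fun i => psi_nonneg β i t
  -- the drift term
  have hI : ∀ i, IntervalIntegrable (fun s => g ((rankPerm fun j => x j s).symm i) + β)
      volume t (t + h) := by
    intro i
    exact (hp.intervalIntegrable i (f := fun k => g k + β) hcbound t (t + h))
  have hsum : ∑ i ∈ B, Ψ i * ∫ s in t..(t + h), (g ((rankPerm fun j => x j s).symm i) + β) ≥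
      (γ * ∑ i ∈ B, Ψ i - 4 * N * G' ^ 2 * h) * h := by
    have e1 : ∑ i ∈ B, Ψ i * ∫ s in t..(t + h), (g ((rankPerm fun j => x j s).symm i) + β) =
        ∫ s in t..(t + h), ∑ i ∈ B, Ψ i * (g ((rankPerm fun j => x j s).symm i) + β) := by
      rw [intervalIntegral.integral_finsetSum]
      · apply Finset.sum_congr rfl
        intro i _
        rw [intervalIntegral.integral_const_mul]
      · intro i _
        exact (hI i).const_mul _
    have e2 : (γ * ∑ i ∈ B, Ψ i - 4 * N * G' ^ 2 * h) * h =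
        ∫ _s in t..(t + h), (γ * ∑ i ∈ B, Ψ i - 4 * N * G' ^ 2 * h) := by
      rw [intervalIntegral.integral_const, smul_eq_mul]; ring
    rw [e1, e2, ge_iff_le]
    apply intervalIntegral.integral_mono_on (by linarith) intervalIntegrable_const
    · have := IntervalIntegrable.sum (μ := volume) (a := t) (b := t + h) B
        (f := fun i s => Ψ i * (g ((rankPerm fun j => x j s).symm i) + β))
        (fun i _ => (hI i).const_mul _)
      rwa [Finset.sum_fn] at this
    intro s hs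
    have hrank := rankPerm_spec (hp.rankable s)
    have h1 := rank_abel hrank (-(β * s)) B (fun i hi => hlow s hs.1 hs.2 i hi) hc
    have h2 : ∀ i ∈ B, |psi x β i s - Ψ i| ≤ 2 * G' * h := by
      intro i hi
      refine (abs_max_sub_le _ _).trans ?_
      exact move_bound hp hG hG' hγ ht hr hh (hosc i hi) hs.1 hs.2
    have h3 : ∑ i ∈ B, psi x β i s * (g ((rankPerm fun j => x j s).symm i) + β) ≤
        ∑ i ∈ B, Ψ i * (g ((rankPerm fun j => x j s).symm i) + β) + N * (2 * G' * h * G') := by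
      rw [← sub_le_iff_le_add', ← Finset.sum_sub_distrib]
      calc ∑ i ∈ B, (psi x β i s * (g ((rankPerm fun j => x j s).symm i) + β) -
              Ψ i * (g ((rankPerm fun j => x j s).symm i) + β))
          ≤ ∑ _i ∈ B, (2 * G' * h * G') := by
            apply Finset.sum_le_sum
            intro i hi
            rw [← sub_mul]
            refine (le_abs_self _).trans ?_
            rw [abs_mul]
            exact mul_le_mul (h2 i hi) (hcbound _) (abs_nonneg _) (by positivity)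
        _ = (B.card : ℝ) * (2 * G' * h * G') := by rw [Finset.sum_const, nsmul_eq_mul]
        _ ≤ N * (2 * G' * h * G') := mul_le_mul_of_nonneg_right hBN (by positivity)
    have h4 : ∑ i ∈ B, Ψ i ≤ ∑ i ∈ B, psi x β i s + N * (2 * G' * h) := by
      rw [← sub_le_iff_le_add', ← Finset.sum_sub_distrib]
      calc ∑ i ∈ B, (Ψ i - psi x β i s) ≤ ∑ _i ∈ B, (2 * G' * h) := by
            apply Finset.sum_le_sum
            intro i hi
            have := (abs_le.1 (h2 i hi)).1
            linarith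
        _ = (B.card : ℝ) * (2 * G' * h) := by rw [Finset.sum_const, nsmul_eq_mul]
        _ ≤ N * (2 * G' * h) := mul_le_mul_of_nonneg_right hBN (by positivity)
    have h5 : γ * ∑ i ∈ B, Ψ i ≤ γ * ∑ i ∈ B, psi x β i s + N * (2 * G' * h * G') := by
      have h6 := mul_le_mul_of_nonneg_left h4 hγ0
      have h7 : γ * (N * (2 * G' * h)) ≤ N * (2 * G' * h * G') := by
        have : 0 ≤ (N : ℝ) * (2 * G' * h) := by positivity
        calc γ * (N * (2 * G' * h)) ≤ G' * (N * (2 * G' * h)) :=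
              mul_le_mul_of_nonneg_right hγ this
          _ = N * (2 * G' * h * G') := by ring
      linarith [mul_add γ (∑ i ∈ B, psi x β i s) (N * (2 * G' * h))]
    have h8 : γ * ∑ i ∈ B, psi x β i s ≤
        ∑ i ∈ B, psi x β i s * (g ((rankPerm fun j => x j s).symm i) + β) := h1
    nlinarith [h3, h5, h8]
  -- one particle
  have hone : ∀ i ∈ B, psi x β i (t + h) ^ 2 ≤ Ψ i ^ 2
      - 2 * (Ψ i * ∫ s in t..(t + h), (g ((rankPerm fun j => x j s).symm i) + β))
      + γ * h * Ψ i + (2 * G' * h) ^ 2 := by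
    intro i hi
    have h1 := sq_max_le (-(β * t) - x i t) (-(β * (t + h)) - x i (t + h))
    have h2 := move_bound hp hG hG' hγ ht hr hh (hosc i hi) (u := t + h) (by linarith) le_rfl
    have h3 := hp.incr hG i ht (by linarith : 0 ≤ t + h)
    have h4 : ∫ s in t..(t + h), (g ((rankPerm fun j => x j s).symm i) + β) =
        (∫ s in t..(t + h), g ((rankPerm fun j => x j s).symm i)) + β * h := by
      rw [intervalIntegral.integral_add (hp.intervalIntegrable i hG _ _) intervalIntegrable_const,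
        intervalIntegral.integral_const, smul_eq_mul]
      ring
    have h5 : (-(β * (t + h)) - x i (t + h)) - (-(β * t) - x i t) =
        -(∫ s in t..(t + h), (g ((rankPerm fun j => x j s).symm i) + β)) -
          (w i (t + h) - w i t) := by
      rw [h4]; linarith
    have h6 := hosc i hi (t + h) (by linarith) le_rfl
    have h7 : (2 * G' * h) ^ 2 ≥ ((-(β * (t + h)) - x i (t + h)) - (-(β * t) - x i t)) ^ 2 :=
      sq_le_sq' (by linarith [(abs_le.1 h2).1]) (abs_le.1 h2).2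
    have h8 : -(2 * Ψ i * (w i (t + h) - w i t)) ≤ γ * h * Ψ i := by
      have h9 := (abs_le.1 h6).1
      nlinarith [hΨ0 i, mul_le_mul_of_nonneg_left (show -(w i (t + h) - w i t) ≤ γ * h / 2 by
        linarith) (hΨ0 i)]
    rw [h5] at h1 h7
    have e : psi x β i (t + h) ^ 2 = (max 0 (-(β * (t + h)) - x i (t + h))) ^ 2 := rfl
    have e' : Ψ i = max 0 (-(β * t) - x i t) := rfl
    rw [← e, ← e'] at h1
    nlinarith [h1, h7, h8]
  have htot : ∑ i ∈ B, psi x β i (t + h) ^ 2 ≤ ∑ i ∈ B, Ψ i ^ 2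
      - 2 * ∑ i ∈ B, (Ψ i * ∫ s in t..(t + h), (g ((rankPerm fun j => x j s).symm i) + β))
      + γ * h * ∑ i ∈ B, Ψ i + N * (2 * G' * h) ^ 2 := by
    calc ∑ i ∈ B, psi x β i (t + h) ^ 2 ≤ ∑ i ∈ B, (Ψ i ^ 2
      - 2 * (Ψ i * ∫ s in t..(t + h), (g ((rankPerm fun j => x j s).symm i) + β))
      + γ * h * Ψ i + (2 * G' * h) ^ 2) := Finset.sum_le_sum hone
      _ = ∑ i ∈ B, Ψ i ^ 2
      - 2 * ∑ i ∈ B, (Ψ i * ∫ s in t..(t + h), (g ((rankPerm fun j => x j s).symm i) + β))
      + γ * h * ∑ i ∈ B, Ψ i + B.card * (2 * G' * h) ^ 2 := by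
          rw [Finset.sum_add_distrib, Finset.sum_add_distrib, Finset.sum_sub_distrib,
            Finset.mul_sum, Finset.mul_sum, Finset.sum_const, nsmul_eq_mul]
      _ ≤ _ := by
          have := mul_le_mul_of_nonneg_right hBN (sq_nonneg (2 * G' * h))
          linarith
  have hsqrt : Real.sqrt (∑ i ∈ B, Ψ i ^ 2) ≤ ∑ i ∈ B, Ψ i := by
    rw [Real.sqrt_le_left (Finset.sum_nonneg fun i _ => hΨ0 i)]
    exact sum_sq_le_sq_sum' B Ψ hΨ0
  have hγh : 0 ≤ γ * h := mul_nonneg hγ0 hh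
  have := mul_le_mul_of_nonneg_left hsqrt hγh
  nlinarith [htot, hsum, this]

end Pool.Agent.H66.CBP
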